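import Mathlib

set_option autoImplicit false
open scoped BigOperators ENNReal

/-!
Project CP (contact process, MP_2b201f_pr): basic definitions.
-/

namespace Pool.Agent.W845.CP

section Gen

variable {V : Type} [DecidableEq V]

/-- Generator of the contact process with infection rate `lam`: every infected vertex `x`
recovers at rate one and infects every `y` in `nb x` at rate `lam`. -/
noncomputable def gen (nb : V → Finset V) (lam : ℝ) (f : Finset V → ℝ) (A : Finset V) : ℝ :=
  ∑ x ∈ A, (f (A.erase x) - f A) + lam * ∑ x ∈ A, ∑ y ∈ nb x, (f (insert y A) - f A)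

/-- Neighbour structure restricted to a region. -/
def rest (nb : V → Finset V) (R : Finset V) : V → Finset V := fun x => nb x ∩ R

/-- `u` is the probability to hit the increasing target `T` for the process in the region `R`. -/
structure IsHit (nb : V → Finset V) (lam : ℝ) (R : Finset V) (T : Finset V → Prop)
    (u : Finset V → ℝ) : Prop where
  nonneg : ∀ A, A ⊆ R → 0 ≤ u A
  le_one : ∀ A, A ⊆ R → u A ≤ 1
  mono : ∀ A B, A ⊆ B → B ⊆ R → u A ≤ u B
  one : ∀ A, A ⊆ R → T A → u A = 1
  empty : u ∅ = 0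
  harm : ∀ A, A ⊆ R → ¬ T A → gen nb lam u A = 0

/-- Total jump rate, jumps to a different state only. -/
noncomputable def rate (nb : V → Finset V) (lam : ℝ) (A : Finset V) : ℝ≥0∞ :=
  (A.card : ℝ≥0∞) + ENNReal.ofReal lam * ∑ x ∈ A, ((nb x \ A).card : ℝ≥0∞)

/-- Sum of rate times value after the jump. -/
noncomputable def up (nb : V → Finset V) (lam : ℝ) (f : Finset V → ℝ≥0∞) (A : Finset V) : ℝ≥0∞ :=
  ∑ x ∈ A, f (A.erase x) + ENNReal.ofReal lam * ∑ x ∈ A, ∑ y ∈ nb x \ A, f (insert y A)

end Gen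

/-! ### The path -/

/-- Neighbours in the path `0, …, l-1`. -/
def pnb (l : ℕ) (j : ℕ) : Finset ℕ :=
  (if j = 0 then ∅ else {j - 1}) ∪ (if j + 1 < l then {j + 1} else ∅)

/-- `O A` is the expected total time that vertex `0` is infected, for the process on the path
`0, …, l-1` started from `A`. -/
structure IsPathGreen (l : ℕ) (lam : ℝ) (O : Finset ℕ → ℝ) : Prop where
  empty : O ∅ = 0
  nonneg : ∀ A, A ⊆ Finset.range l → 0 ≤ O A
  mono : ∀ A B, A ⊆ B → B ⊆ Finset.range l → O A ≤ O B
  subadd : ∀ A B, A ⊆ Finset.range l → B ⊆ Finset.range l → O (A ∪ B) ≤ O A + O B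
  green : ∀ A, A ⊆ Finset.range l → gen (pnb l) lam O A = -(if 0 ∈ A then 1 else 0)

/-- The Green function of the path. -/
noncomputable def pO (l : ℕ) (lam : ℝ) : Finset ℕ → ℝ := Classical.epsilon (IsPathGreen l lam)

/-- Expected occupation time of one end of the path, started from the other end. -/
noncomputable def oo (l : ℕ) (lam : ℝ) : ℝ := pO l lam {l - 1}

/-! ### The hub (complete graph with `m` vertices) -/

/-- `del lam m k` solves `del k = 1/k + lam (m-k) del (k+1)`. -/
noncomputable def del (lam : ℝ) (m k : ℕ) : ℝ :=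
  ∑ i ∈ Finset.range (m - k + 1), lam ^ i * ((m - k).descFactorial i : ℝ) / ((k : ℝ) + i)

noncomputable def TT (lam : ℝ) (m : ℕ) : ℝ := del lam m 1

noncomputable def dsum (lam : ℝ) (m c : ℕ) : ℝ := ∑ j ∈ Finset.Ioc c m, del lam m j / (j : ℝ)

noncomputable def Ts (lam : ℝ) (m : ℕ) : ℝ := 2 * (m : ℝ) * dsum lam m 0

noncomputable def gam (lam : ℝ) (m c : ℕ) : ℝ := dsum lam m c / dsum lam m 0

/-! ### The graph -/

/-- Vertices: `h n y i` is vertex `i` of the complete graph (hub) number `y` at level `n`;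
`t n i y` is the vertex number `y` at depth `i` of the binary tree below the hub `y / 2^i` of
level `n`; `p n j y` is vertex `j` of the path from the leaf `t n (k n) y` down to the hub `y` of
level `n+1`. -/
inductive Vx where
  | h (n y i : ℕ)
  | t (n i y : ℕ)
  | p (n j y : ℕ)
  deriving DecidableEq

/-- The way up from a hub. -/
def upv (l : ℕ → ℕ) : ℕ → ℕ → Finset Vx
  | 0, _ => ∅
  | n + 1, y => {Vx.p n (l n - 1) y}

/-- Neighbours. -/
def nbx (m k l : ℕ → ℕ) : Vx → Finset Vx
  | .h n y i =>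
      if i < m n then
        ((Finset.range (m n)).erase i).image (Vx.h n y) ∪
          (if i = 0 then insert (Vx.t n 0 y) (upv l n y) else ∅)
      else ∅
  | .t n i y =>
      if i ≤ k n then
        insert (if i = 0 then Vx.h n y 0 else Vx.t n (i - 1) (y / 2))
          (if i < k n then {Vx.t n (i + 1) (2 * y), Vx.t n (i + 1) (2 * y + 1)} else {Vx.p n 0 y})
      else ∅
  | .p n j y =>
      if j < l n then
        {(if j = 0 then Vx.t n (k n) y else Vx.p n (j - 1) y),
         (if j + 1 < l n then Vx.p n (j + 1) y else Vx.h (n + 1) y 0)}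
      else ∅

/-- Vertices whose second index is in its range. -/
def vld (m k l : ℕ → ℕ) : Vx → Prop
  | .h n _ i => i < m n
  | .t n i _ => i ≤ k n
  | .p n j _ => j < l n

/-- The hub (complete graph) number `x` of level `n`. -/
def cl (m : ℕ → ℕ) (n x : ℕ) : Finset Vx := (Finset.range (m n)).image (Vx.h n x)

/-- Labels of the hubs of level `n+1` (and of the leaves and paths) below the hub `x`. -/
def kids (k : ℕ → ℕ) (n x : ℕ) : Finset ℕ := Finset.Ico (x * 2 ^ k n) ((x + 1) * 2 ^ k n)

/-- Infected part of a path. -/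
def pre (l : ℕ → ℕ) (n y : ℕ) (A : Finset Vx) : Finset ℕ :=
  (Finset.range (l n)).filter (fun j => Vx.p n j y ∈ A)

/-- expected occupation of the first vertex (next to the leaf) of the path `y` of level `n`. -/
noncomputable def O1 (l : ℕ → ℕ) (lam : ℝ) (n y : ℕ) (A : Finset Vx) : ℝ :=
  pO (l n) lam (pre l n y A)

/-- expected occupation of the last vertex (next to the hub `y` of level `n+1`) of the path. -/
noncomputable def O2 (l : ℕ → ℕ) (lam : ℝ) (n y : ℕ) (A : Finset Vx) : ℝ :=
  pO (l n) lam ((pre l n y A).image (fun j => l n - 1 - j))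

/-- weights on the tree below the hub `x` of level `n`, decreasing away from the hub. -/
noncomputable def wt (k : ℕ → ℕ) (n x : ℕ) : Vx → ℝ
  | .t n' i y => if n' = n ∧ i ≤ k n ∧ y / 2 ^ i = x then (1 / 19 : ℝ) ^ i else 0
  | _ => 0

/-- weights on the tree below the hub `x` of level `n`, increasing away from the hub. -/
noncomputable def gt (k : ℕ → ℕ) (n x : ℕ) : Vx → ℝ
  | .t n' i y => if n' = n ∧ i ≤ k n ∧ y / 2 ^ i = x then (2 / 19 : ℝ) ^ (k n - i) else 0
  | _ => 0

/-- the part of `SS` on the path above the hub. -/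
noncomputable def SU (l : ℕ → ℕ) (lam : ℝ) : ℕ → ℕ → Finset Vx → ℝ
  | 0, _, _ => 0
  | n + 1, x, A => lam * O2 l lam n x A

/-- Bound for the expected number of attempts to infect the hub `x` of level `n` from outside. -/
noncomputable def SS (k l : ℕ → ℕ) (lam : ℝ) (n x : ℕ) (A : Finset Vx) : ℝ :=
  2 * lam * (∑ v ∈ A, wt k n x v + lam * (1 / 19 : ℝ) ^ k n * ∑ y ∈ kids k n x, O1 l lam n y A)
    + SU l lam n x A

/-- Downward functional. -/
noncomputable def HH (k l : ℕ → ℕ) (lam : ℝ) (n x : ℕ) (A : Finset Vx) : ℝ :=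
  ∑ v ∈ A, gt k n x v + lam * ∑ y ∈ kids k n x, O1 l lam n y A

/-- Input into `SS` from the leaf above the hub. -/
noncomputable def EU (k l : ℕ → ℕ) (lam : ℝ) : ℕ → ℕ → Finset Vx → ℝ
  | 0, _, _ => 0
  | n + 1, x, A => if Vx.t n (k n) x ∈ A then lam ^ 2 * oo (l n) lam else 0

/-- Number of infected ports of the hubs below the hub `x` of level `n`. -/
def nch (k : ℕ → ℕ) (n x : ℕ) (A : Finset Vx) : ℕ :=
  ((kids k n x).filter (fun y => Vx.h (n + 1) y 0 ∈ A)).card

/-- Number of infected leaves below the hub `x` of level `n`. -/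
def nlf (k : ℕ → ℕ) (n x : ℕ) (A : Finset Vx) : ℕ :=
  ((kids k n x).filter (fun y => Vx.t n (k n) y ∈ A)).card

/-- Total input into `SS` from elsewhere. -/
noncomputable def EE (k l : ℕ → ℕ) (lam : ℝ) (n x : ℕ) (A : Finset Vx) : ℝ :=
  2 * lam ^ 3 * (1 / 19 : ℝ) ^ k n * oo (l n) lam * nch k n x A + EU k l lam n x A

/-- Outside neighbours of the port of a hub. -/
def Ext (l : ℕ → ℕ) (n x : ℕ) : Finset Vx := insert (Vx.t n 0 x) (upv l n x)

/-- Region below the hub `x` of level `n`: tree, paths, and the hubs of level `n+1` below. -/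
def Wout (m k l : ℕ → ℕ) (n x : ℕ) : Finset Vx :=
  ((Finset.range (k n + 1)).biUnion fun i =>
      (Finset.Ico (x * 2 ^ i) ((x + 1) * 2 ^ i)).image (Vx.t n i)) ∪
    ((kids k n x).biUnion fun y => (Finset.range (l n)).image fun j => Vx.p n j y) ∪
    ((kids k n x).biUnion fun y => cl m (n + 1) y)

/-- Region above the hub `y` of level `n+1`: path, geodesic in the tree, hub of level `n`. -/
def Wup (m k l : ℕ → ℕ) (n y : ℕ) : Finset Vx :=
  ((Finset.range (l n)).image fun j => Vx.p n j y) ∪
    ((Finset.range (k n + 1)).image fun i => Vx.t n i (y / 2 ^ (k n - i))) ∪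
    cl m n (y / 2 ^ k n)

/-- Target: some hub in `J` has at least four infected vertices. -/
def Tgt (m : ℕ → ℕ) (J : Finset (ℕ × ℕ)) (A : Finset Vx) : Prop :=
  ∃ j ∈ J, 4 ≤ (A ∩ cl m j.1 j.2).card

def phi (c : ℕ) : ℝ := if c = 0 then 0 else max 1 (5 - (c : ℝ))

def isConn : Vx → Bool
  | .h _ _ _ => false
  | .t _ _ _ => true
  | .p _ _ _ => true

/-- Correction term for the lower bound. -/
noncomputable def Vf (m : ℕ → ℕ) (J : Finset (ℕ × ℕ)) (A : Finset Vx) : ℝ :=
  4 * ((A.filter (fun v => isConn v = true)).card : ℝ) + ∑ j ∈ J, phi (A ∩ cl m j.1 j.2).card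

/-- Hubs of level `n+1` below the hub `x` of level `n`. -/
def Jout (k : ℕ → ℕ) (n x : ℕ) : Finset (ℕ × ℕ) := (kids k n x).image fun y => (n + 1, y)

/-- The hub of level `n` above the hub `y` of level `n+1`. -/
def Jup (k : ℕ → ℕ) (n y : ℕ) : Finset (ℕ × ℕ) := {(n, y / 2 ^ k n)}

end Pool.Agent.W845.CP
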