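import Mathlib

set_option autoImplicit false
set_option linter.style.haveILetI false
set_option linter.unusedSectionVars false
open scoped BigOperators ENNReal
open MeasureTheory ProbabilityTheory

/-!
Project CP: continuous time Markov jump processes on a countable state space,
given by their jump chain and jump times.
-/

namespace Pool.Agent.W845.CP

section PL

variable {X : Type} [MeasurableSpace X]

/-- Law of (next state, time of the next jump) when the process entered the state `z.1` at time
`z.2`: the holding time is exponential with the total rate `J z.1 univ`, and independently of it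
the next state has law `J z.1` normalised. -/
noncomputable def stepM (J : X → Measure X) (z : X × ℝ) : Measure (X × ℝ) :=
  (((J z.1 Set.univ)⁻¹ • J z.1).prod (expMeasure (J z.1 Set.univ).toReal)).map
    (fun w => (w.1, z.2 + w.2))

/-- All total rates are positive and finite. -/
def GoodJ (J : X → Measure X) : Prop := ∀ x, J x Set.univ ≠ 0 ∧ J x Set.univ ≠ ⊤

lemma isProb_norm (J : X → Measure X) (hJ : GoodJ J) (x : X) :
    IsProbabilityMeasure ((J x Set.univ)⁻¹ • J x) :=
  ⟨by rw [Measure.smul_apply, smul_eq_mul, ENNReal.inv_mul_cancel (hJ x).1 (hJ x).2]⟩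

lemma isProb_exp (J : X → Measure X) (hJ : GoodJ J) (x : X) :
    IsProbabilityMeasure (expMeasure (J x Set.univ).toReal) :=
  isProbabilityMeasure_expMeasure (ENNReal.toReal_pos (hJ x).1 (hJ x).2)

lemma isProb_stepM (J : X → Measure X) (hJ : GoodJ J) (z : X × ℝ) :
    IsProbabilityMeasure (stepM J z) := by
  haveI := isProb_norm J hJ z.1
  haveI := isProb_exp J hJ z.1
  unfold stepM
  exact Measure.isProbabilityMeasure_map (by fun_prop)

variable [Countable X] [DiscreteMeasurableSpace X]

lemma measurable_stepM (J : X → Measure X) (hJ : GoodJ J) : Measurable (stepM J) := by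
  apply measurable_from_prod_countable_right
  intro x
  haveI := isProb_norm J hJ x
  haveI := isProb_exp J hJ x
  refine Measure.measurable_of_measurable_coe _ fun s hs => ?_
  have h1 : ∀ t : ℝ, stepM J (x, t) s =
      (((J x Set.univ)⁻¹ • J x).prod (expMeasure (J x Set.univ).toReal))
        (Prod.mk t ⁻¹' ((fun q : ℝ × (X × ℝ) => (q.2.1, q.1 + q.2.2)) ⁻¹' s)) := by
    intro t
    unfold stepM
    rw [Measure.map_apply (by fun_prop) hs]
    rfl
  simp_rw [h1]
  exact measurable_measure_prodMk_left ((by fun_prop :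
    Measurable (fun q : ℝ × (X × ℝ) => (q.2.1, q.1 + q.2.2))) hs)

/-- The transition kernel of the chain (state, jump time). -/
noncomputable def stepK (J : X → Measure X) (hJ : GoodJ J) : Kernel (X × ℝ) (X × ℝ) where
  toFun := stepM J
  measurable' := measurable_stepM J hJ

instance stepK_markov (J : X → Measure X) (hJ : GoodJ J) : IsMarkovKernel (stepK J hJ) :=
  ⟨fun z => isProb_stepM J hJ z⟩

/-- The kernel as a function of the past. -/
noncomputable def histK (J : X → Measure X) (hJ : GoodJ J) (n : ℕ) :
    Kernel (Π _ : Finset.Iic n, X × ℝ) (X × ℝ) :=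
  (stepK J hJ).comap (fun h => h ⟨n, by simp⟩) (by fun_prop)

instance histK_markov (J : X → Measure X) (hJ : GoodJ J) (n : ℕ) :
    IsMarkovKernel (histK J hJ n) := by
  unfold histK; infer_instance

/-- The law of the sequence (states, jump times) of the process started in `x0` at time `0`. -/
noncomputable def law (J : X → Measure X) (hJ : GoodJ J) (x0 : X) : Measure (ℕ → X × ℝ) :=
  Kernel.trajMeasure (X := fun _ => X × ℝ) (Measure.dirac (x0, (0 : ℝ))) (histK J hJ)

instance law_prob (J : X → Measure X) (hJ : GoodJ J) (x0 : X) :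
    IsProbabilityMeasure (law J hJ x0) := by
  unfold law; infer_instance

/-- The fundamental identity: conditional law of the next step. -/
theorem tower (J : X → Measure X) (hJ : GoodJ J) (x0 : X) (n : ℕ)
    (F : (Π _ : Finset.Iic n, X × ℝ) → X × ℝ → ℝ≥0∞) (hF : Measurable (Function.uncurry F)) :
    ∫⁻ ω, F (Preorder.frestrictLe (π := fun _ => X × ℝ) n ω) (ω (n + 1)) ∂(law J hJ x0) =
      ∫⁻ ω, ∫⁻ z, F (Preorder.frestrictLe (π := fun _ => X × ℝ) n ω) z ∂(stepM J (ω n))
        ∂(law J hJ x0) := by
  have h := Kernel.map_frestrictLe_trajMeasure_compProd_eq_map_trajMeasure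
    (X := fun _ => X × ℝ) (κ := histK J hJ) (μ₀ := Measure.dirac (x0, (0 : ℝ))) (a := n)
  have h1 : ∫⁻ ω, F (Preorder.frestrictLe (π := fun _ => X × ℝ) n ω) (ω (n + 1)) ∂(law J hJ x0) =
      ∫⁻ q, Function.uncurry F q ∂((law J hJ x0).map
        (fun x => (Preorder.frestrictLe (π := fun _ => X × ℝ) n x, x (n + 1)))) := by
    rw [lintegral_map hF (by fun_prop)]
    rfl
  rw [h1]
  unfold law
  rw [← h, Measure.lintegral_compProd hF, lintegral_map]
  · rfl
  · exact hF.lintegral_kernel_prod_right'
  · fun_prop

theorem law_zero (J : X → Measure X) (hJ : GoodJ J) (x0 : X) :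
    (law J hJ x0).map (fun ω => ω 0) = Measure.dirac (x0, (0 : ℝ)) := by
  have h0 : (law J hJ x0).map (Preorder.frestrictLe (π := fun _ => X × ℝ) 0) =
      (Measure.dirac (x0, (0 : ℝ))).map
        (MeasurableEquiv.piUnique (fun _ : Finset.Iic 0 => X × ℝ)).symm := by
    unfold law Kernel.trajMeasure
    rw [Measure.map_comp _ _ (by fun_prop), Kernel.traj_map_frestrictLe,
      Kernel.partialTraj_self, Measure.id_comp]
  have h1 : (law J hJ x0).map (fun ω => ω 0) =
      ((law J hJ x0).map (Preorder.frestrictLe (π := fun _ => X × ℝ) 0)).map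
        (fun h => h ⟨0, by simp⟩) := by
    rw [Measure.map_map (by fun_prop) (by fun_prop)]
    rfl
  rw [h1, h0, Measure.map_map (by fun_prop) (by fun_prop)]
  exact Measure.map_dirac' (by fun_prop) _

theorem lintegral_stepM (J : X → Measure X) (hJ : GoodJ J) (z : X × ℝ) (F : X × ℝ → ℝ≥0∞)
    (hF : Measurable F) :
    ∫⁻ w, F w ∂(stepM J z) = (J z.1 Set.univ)⁻¹ *
      ∫⁻ y, ∫⁻ s, F (y, z.2 + s) ∂(expMeasure (J z.1 Set.univ).toReal) ∂(J z.1) := by
  haveI := isProb_norm J hJ z.1
  haveI := isProb_exp J hJ z.1
  unfold stepM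
  rw [lintegral_map hF (by fun_prop), lintegral_prod _ (by fun_prop), lintegral_smul_measure]
  rfl

end PL

end Pool.Agent.W845.CP
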