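import Mathlib
import Pool.Agent.W845.CP.Defs
import Pool.Agent.W845.CP.PL

set_option autoImplicit false
set_option linter.style.haveILetI false
set_option linter.unusedSectionVars false
open scoped BigOperators ENNReal
open MeasureTheory ProbabilityTheory

/-!
Project CP: the contact process on a locally finite graph, started from a finite set.
-/

namespace Pool.Agent.W845.CP

section Model

variable {V : Type} [DecidableEq V]

/-- The discrete sigma-algebra on the finite sets of vertices. -/
instance finsetMS : MeasurableSpace (Finset V) := ⊤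

instance finsetDMS : DiscreteMeasurableSpace (Finset V) := ⟨fun _ => trivial⟩

/-- Jump rates of the contact process with infection rate `lam`: from the set `A` of infected
vertices, every `x ∈ A` recovers at rate `1`, and every `x ∈ A` infects every neighbour `y ∉ A`
at rate `lam`. The empty set is absorbing (it has only dummy jumps to itself). -/
noncomputable def jump (nb : V → Finset V) (lam : ℝ) (A : Finset V) : Measure (Finset V) :=
  if A = ∅ then Measure.dirac ∅ else
    ∑ x ∈ A, Measure.dirac (A.erase x) +
      ENNReal.ofReal lam • ∑ x ∈ A, ∑ y ∈ nb x \ A, Measure.dirac (insert y A)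

lemma lintegral_jump (nb : V → Finset V) (lam : ℝ) (A : Finset V) (hA : A ≠ ∅)
    (f : Finset V → ℝ≥0∞) : ∫⁻ B, f B ∂(jump nb lam A) = up nb lam f A := by
  unfold jump up
  rw [if_neg hA, lintegral_add_measure, lintegral_smul_measure]
  simp only [lintegral_finset_sum_measure, lintegral_dirac]
  rfl

lemma lintegral_jump_empty (nb : V → Finset V) (lam : ℝ)
    (f : Finset V → ℝ≥0∞) : ∫⁻ B, f B ∂(jump nb lam ∅) = f ∅ := by
  unfold jump
  rw [if_pos rfl, lintegral_dirac]

lemma jump_univ (nb : V → Finset V) (lam : ℝ) (A : Finset V) (hA : A ≠ ∅) :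
    jump nb lam A Set.univ = rate nb lam A := by
  have h := lintegral_jump nb lam A hA (fun _ => 1)
  rw [lintegral_one] at h
  rw [h]
  unfold up rate
  simp

lemma jump_univ_empty (nb : V → Finset V) (lam : ℝ) :
    jump nb lam (∅ : Finset V) Set.univ = 1 := by
  unfold jump
  rw [if_pos rfl]; simp

lemma goodJ_jump (nb : V → Finset V) (lam : ℝ) : GoodJ (jump nb lam) := by
  intro A
  by_cases hA : A = ∅
  · subst hA
    rw [jump_univ_empty]
    exact ⟨one_ne_zero, ENNReal.one_ne_top⟩
  · rw [jump_univ nb lam A hA]
    unfold rate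
    refine ⟨?_, ?_⟩
    · intro h
      have h1 := (add_eq_zero.1 h).1
      rw [Nat.cast_eq_zero, Finset.card_eq_zero] at h1
      exact hA h1
    · refine ENNReal.add_ne_top.2 ⟨ENNReal.natCast_ne_top _, ENNReal.mul_ne_top ENNReal.ofReal_ne_top ?_⟩
      exact ENNReal.sum_ne_top.2 fun _ _ => ENNReal.natCast_ne_top _

/-- The law of the contact process on `G` with infection rate `lam` started from `{o}`: the
law of the sequence `(Y_k, T_k)`, where `Y_k` is the set of infected vertices after `k` jumps and
`T_k` is the time of the `k`-th jump. -/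
noncomputable def contactLaw [Countable V] (G : SimpleGraph V) [G.LocallyFinite] (lam : ℝ) (o : V) :
    Measure (ℕ → Finset V × ℝ) :=
  law (jump (fun x => G.neighborFinset x) lam) (goodJ_jump _ _) {o}

/-- The set of infected vertices at time `t` (it is `Y_k` for `T_k ≤ t < T_{k+1}`). -/
def infected (ω : ℕ → Finset V × ℝ) (t : ℝ) : Set V :=
  {x | ∃ k, (ω k).2 ≤ t ∧ t < (ω (k + 1)).2 ∧ x ∈ (ω k).1}

/-- The process survives globally. -/
def SurvivesGlobally [Countable V] (G : SimpleGraph V) [G.LocallyFinite] (lam : ℝ) (o : V) : Prop :=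
  0 < contactLaw G lam o {ω | ∀ t : ℝ, 0 ≤ t → (infected ω t).Nonempty}

/-- The process survives locally. -/
def SurvivesLocally [Countable V] (G : SimpleGraph V) [G.LocallyFinite] (lam : ℝ) (o : V) : Prop :=
  0 < contactLaw G lam o {ω | ∀ t : ℝ, ∃ s, t ≤ s ∧ o ∈ infected ω s}

/-- The process does not explode: the jump times tend to infinity almost surely. -/
def NonExplosive [Countable V] (G : SimpleGraph V) [G.LocallyFinite] (lam : ℝ) (o : V) : Prop :=
  ∀ᵐ ω ∂(contactLaw G lam o), Filter.Tendsto (fun k => (ω k).2) Filter.atTop Filter.atTop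

/-- Critical rate for global survival. -/
noncomputable def lamGlob [Countable V] (G : SimpleGraph V) [G.LocallyFinite] (o : V) : ℝ :=
  sInf {lam : ℝ | 0 < lam ∧ SurvivesGlobally G lam o}

/-- Critical rate for local survival. -/
noncomputable def lamLoc [Countable V] (G : SimpleGraph V) [G.LocallyFinite] (o : V) : ℝ :=
  sInf {lam : ℝ | 0 < lam ∧ SurvivesLocally G lam o}

end Model

end Pool.Agent.W845.CP
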