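import Mathlib
import Pool.Agent.W845.CP.Defs
import Pool.Agent.W845.CP.PL
import Pool.Agent.W845.CP.Model

set_option autoImplicit false
set_option linter.style.haveILetI false
set_option linter.unusedSectionVars false
open scoped BigOperators ENNReal
open MeasureTheory ProbabilityTheory

/-!
Project CP: the statements of the parts.
-/

namespace Pool.Agent.W845.CP

/-! ## Path level -/

/-- Almost sure properties of the steps. -/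
def St_STEP : Prop :=
  ∀ (X : Type) [MeasurableSpace X] [Countable X] [DiscreteMeasurableSpace X]
    (J : X → Measure X) (hJ : GoodJ J) (x0 : X) (R : X → X → Prop),
    (∀ x, ∀ᵐ y ∂(J x), R x y) →
    ∀ᵐ ω ∂(law J hJ x0), ω 0 = (x0, 0) ∧
      ∀ k, R (ω k).1 (ω (k + 1)).1 ∧ (ω k).2 < (ω (k + 1)).2

/-- Occupation time bound. -/
def St_OCC1 : Prop :=
  ∀ (X : Type) [MeasurableSpace X] [Countable X] [DiscreteMeasurableSpace X]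
    (J : X → Measure X) (hJ : GoodJ J) (x0 : X) (f g : X → ℝ≥0∞),
    (∀ x, ∫⁻ y, f y ∂(J x) + g x ≤ J x Set.univ * f x) →
    ∫⁻ ω, ∑' k, g (ω k).1 * ENNReal.ofReal ((ω (k + 1)).2 - (ω k).2) ∂(law J hJ x0) ≤ f x0

/-- A set is entered only finitely often. -/
def St_OCC2 : Prop :=
  ∀ (X : Type) [MeasurableSpace X] [Countable X] [DiscreteMeasurableSpace X]
    (J : X → Measure X) (hJ : GoodJ J) (x0 : X) (f g : X → ℝ≥0∞) (O : Set X),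
    (∀ x, ∫⁻ y, f y ∂(J x) + g x ≤ J x Set.univ * f x) → f x0 ≠ ⊤ →
    (∀ x, x ∉ O → J x O ≤ g x) →
    ∀ᵐ ω ∂(law J hJ x0), {k | (ω k).1 ∉ O ∧ (ω (k + 1)).1 ∈ O}.Finite

/-- Non-explosion criterion. -/
def St_NE : Prop :=
  ∀ (X : Type) [MeasurableSpace X] [Countable X] [DiscreteMeasurableSpace X]
    (J : X → Measure X) (hJ : GoodJ J) (x0 : X) (h : X → ℝ≥0∞) (C c : ℝ≥0∞),
    C ≠ ⊤ → c ≠ ⊤ → h x0 ≠ ⊤ →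
    (∀ x, ∫⁻ y, h y ∂(J x) ≤ (J x Set.univ + C) * h x) →
    (∀ x, J x Set.univ ≤ c * (h x + 1)) →
    ∀ᵐ ω ∂(law J hJ x0), Filter.Tendsto (fun k => (ω k).2) Filter.atTop Filter.atTop

/-- Lower bound for the probability to visit the sets `S 0, …, S r` in this order. -/
def St_CHAIN : Prop :=
  ∀ (X : Type) [MeasurableSpace X] [Countable X] [DiscreteMeasurableSpace X]
    (J : X → Measure X) (hJ : GoodJ J) (x0 : X) (r : ℕ) (S : ℕ → Set X) (c : ℕ → ℝ≥0∞) (δ : ℝ),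
    0 < δ → (∀ i, c i ≤ 1) →
    (∀ᵐ ω ∂(law J hJ x0), Filter.Tendsto (fun k => (ω k).2) Filter.atTop Filter.atTop) →
    x0 ∈ S 0 →
    (∀ i, i < r → ∀ x ∈ S i, ∃ u : X → ℝ≥0∞, (∀ y, u y ≤ 1) ∧
      (∀ y, y ∉ S (i + 1) → (J y Set.univ + ENNReal.ofReal δ) * u y ≤ ∫⁻ z, u z ∂(J y)) ∧
      c i ≤ u x) →
    ∏ i ∈ Finset.range r, c i ≤ law J hJ x0
      {ω | ∃ κ : ℕ → ℕ, (∀ i, i < r → κ i ≤ κ (i + 1)) ∧ ∀ i, i ≤ r → (ω (κ i)).1 ∈ S i}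

/-! ## Finite regions -/

/-- Minimum principle. -/
def St_MP : Prop :=
  ∀ (V : Type) [DecidableEq V] (nb : V → Finset V) (lam : ℝ), 0 ≤ lam →
    ∀ R : Finset V, (∀ x ∈ R, nb x ⊆ R) → ∀ F : Finset V → ℝ, 0 ≤ F ∅ →
    (∀ A, A ⊆ R → A ≠ ∅ → 0 ≤ F A ∨ gen nb lam F A ≤ 0) → ∀ A, A ⊆ R → 0 ≤ F A

/-- Existence of hitting functions and of their discounted approximations. -/
def St_REGHIT : Prop :=
  ∀ (V : Type) [DecidableEq V] (nb : V → Finset V) (lam : ℝ), 0 ≤ lam →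
    ∀ R : Finset V, (∀ x ∈ R, nb x ⊆ R) → ∀ T : Finset V → Prop,
    (∀ A B, A ⊆ B → T A → T B) → ¬ T ∅ →
    ∃ u, IsHit nb lam R T u ∧ ∀ ε : ℝ, 0 < ε → ∃ δ0 : ℝ, 0 < δ0 ∧ ∀ δ : ℝ, 0 < δ → δ ≤ δ0 →
      ∃ w : Finset V → ℝ, (∀ A, A ⊆ R → 0 ≤ w A ∧ w A ≤ 1) ∧
        (∀ A B, A ⊆ B → B ⊆ R → w A ≤ w B) ∧
        (∀ A, A ⊆ R → ¬ T A → gen nb lam w A = δ * w A) ∧
        (∀ A, A ⊆ R → u A - ε ≤ w A)

/-- Existence of Green functions. -/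
def St_GREEN : Prop :=
  ∀ (V : Type) [DecidableEq V] (nb : V → Finset V) (lam : ℝ), 0 ≤ lam →
    ∀ R : Finset V, (∀ x ∈ R, nb x ⊆ R) → ∀ g : Finset V → ℝ, g ∅ = 0 →
    (∀ A, A ⊆ R → 0 ≤ g A) → (∀ A B, A ⊆ B → B ⊆ R → g A ≤ g B) →
    (∀ A B, A ⊆ R → B ⊆ R → g (A ∪ B) ≤ g A + g B) →
    ∃ O : Finset V → ℝ, O ∅ = 0 ∧ (∀ A, A ⊆ R → 0 ≤ O A) ∧
      (∀ A B, A ⊆ B → B ⊆ R → O A ≤ O B) ∧
      (∀ A B, A ⊆ R → B ⊆ R → O (A ∪ B) ≤ O A + O B) ∧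
      (∀ A, A ⊆ R → gen nb lam O A = -(g A))

/-- From a region to the whole graph. -/
def St_TR : Prop :=
  ∀ (V : Type) [DecidableEq V] (nb : V → Finset V) (lam : ℝ), 0 ≤ lam →
    ∀ (R : Finset V) (T : Finset V → Prop),
    (∀ A B, A ⊆ B → T A → T B) → (∀ A, T A → T (A ∩ R)) → ¬ T ∅ →
    ∀ u, IsHit (rest nb R) lam R T u → ∀ ε : ℝ, 0 < ε → ∃ δ0 : ℝ, 0 < δ0 ∧
      ∀ δ : ℝ, 0 < δ → δ ≤ δ0 → ∃ w : Finset V → ℝ, (∀ A, 0 ≤ w A ∧ w A ≤ 1) ∧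
        (∀ A, ¬ T A → δ * w A ≤ gen nb lam w A) ∧ (∀ A, u (A ∩ R) - ε ≤ w A)

/-! ## The path -/

def St_PATH : Prop :=
  ∀ lam : ℝ, 0 < lam → lam ≤ 1 / 16 → ∀ l : ℕ, 1 ≤ l →
    IsPathGreen l lam (pO l lam) ∧
    (∀ j, j < l → pO l lam {j} ≤ 2 * (1 / 15 : ℝ) ^ j) ∧
    (∀ A, A ⊆ Finset.range l → pO l lam A ≤ 15 / 7) ∧
    0 < oo l lam ∧
    oo 1 lam = 1 ∧
    lam / (1 + lam) * oo l lam ≤ oo (l + 1) lam ∧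
    (∀ lam' : ℝ, lam ≤ lam' → lam' ≤ 1 / 16 → oo l lam ≤ oo l lam') ∧
    (∀ A, A ⊆ Finset.range l →
      gen (pnb l) lam (fun B => pO l lam (B.image (fun j => l - 1 - j))) A =
        -(if l - 1 ∈ A then 1 else 0))

/-! ## The hub sequences -/

def St_SEQ : Prop :=
  (∀ lam : ℝ, 0 ≤ lam → ∀ m : ℕ, 1 ≤ m →
    (∀ k, 1 ≤ k → k < m → del lam m k = 1 / (k : ℝ) + lam * ((m : ℝ) - k) * del lam m (k + 1)) ∧
    del lam m m = 1 / (m : ℝ) ∧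
    (∀ k, 1 ≤ k → k ≤ m → 0 < del lam m k) ∧
    (∀ k, 1 ≤ k → k < m → del lam m (k + 1) ≤ del lam m k) ∧
    1 ≤ TT lam m ∧
    TT lam m ≤ TT lam (m + 1) ∧
    TT lam (m + 1) ≤ 1 + lam * m * TT lam m ∧
    0 < dsum lam m 0 ∧
    Ts lam m ≤ 2 * (m : ℝ) ^ 2 * TT lam m ∧
    (∀ lam' : ℝ, lam ≤ lam' → TT lam m ≤ TT lam' m ∧ Ts lam m ≤ Ts lam' m) ∧
    (8 ≤ m → (lam * m / 2) ^ 4 * del lam m 5 ≤ TT lam m)) ∧
  (∀ lam lam' : ℝ, 0 < lam → lam ≤ lam' → ∀ m : ℕ, 1 ≤ m → 8 ≤ lam' * m →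
    TT lam m ≤ ((1 / 2 : ℝ) ^ (m / 4) + (lam / lam') ^ (m / 4)) * TT lam' m)

/-! ## Hub, upper bound -/

def St_HUP : Prop :=
  ∀ (V : Type) [DecidableEq V] (nb : V → Finset V) (lam : ℝ), 0 < lam → lam ≤ 1 / 20 →
    ∀ (K Ex : Finset V) (v : V), v ∈ K → Disjoint K Ex →
    (∀ x ∈ K, nb x = K.erase x ∪ (if x = v then Ex else ∅)) →
    (∀ y, y ∉ K → nb y ∩ K = if y ∈ Ex then {v} else ∅) →
    ∀ (S e : Finset V → ℝ), (∀ A, 0 ≤ S A ∧ S A ≤ 1 / 4) → (∀ A, 0 ≤ e A) →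
    (∀ A, ∀ x ∈ K, S (insert x A) = S A ∧ S (A.erase x) = S A) →
    (∀ A, gen nb lam S A ≤ -(lam * (A ∩ Ex).card) + (if v ∈ A then 4 * lam ^ 2 else 0) + e A) →
    ∀ A, gen nb lam (fun B => Ts lam K.card * (1 - gam lam K.card (B ∩ K).card * (1 - S B))) A ≤
      -(if (A ∩ K).Nonempty then 1 else 0) + Ts lam K.card * e A

/-! ## Hub, lower bound -/

def St_HLOW : Prop :=
  ∀ (V : Type) [DecidableEq V] (nb : V → Finset V) (lam : ℝ), 1 / 20 ≤ lam → lam ≤ 1 / 16 →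
    ∀ (K W : Finset V) (v w0 : V), 8 ≤ K.card → Disjoint K W → v ∈ K → w0 ∈ W →
    (∀ x ∈ K, x ≠ v → nb x = K.erase x) → nb v = insert w0 (K.erase v) →
    (∀ w ∈ W, w ≠ w0 → nb w ⊆ W) → nb w0 ⊆ insert v W → v ∈ nb w0 →
    ∀ T : Finset V → Prop, (∀ A B, A ⊆ B → T A → T B) → (∀ A, T A → T (A ∩ W)) → ¬ T ∅ →
    ∀ s : Finset V → ℝ, IsHit (rest nb W) lam W T s → 0 < s {w0} →
    ∀ f : Finset V → ℝ, f ∅ = 0 → (∀ A, A ⊆ W → 0 ≤ f A) →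
    (∀ A, A ⊆ W → f (insert w0 A) ≤ f A + 4) →
    (∀ A, A ⊆ W → A ≠ ∅ → ¬ T A →
      gen (rest nb W) lam f A ≤ -(f A / 2 + 4 * lam + 1 / 2)) →
    ∀ u : Finset V → ℝ, IsHit nb lam (K ∪ W) T u →
    (∀ A, A ⊆ K ∪ W → 4 ≤ (A ∩ K).card →
      1 - 2 * (20 * K.card / (lam ^ 2 * s {w0} * TT lam K.card) +
        K.card * del lam K.card 5 / TT lam K.card) ≤ u A) ∧
    (∀ A, A ⊆ K ∪ W → (A ∩ K).Nonempty → (1 / 21 : ℝ) ^ 2 * s {w0} ≤ u A)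

/-! ## Connectors, upper bounds -/

def St_CONN1 : Prop :=
  ∀ (m k l : ℕ → ℕ), (∀ n, 1 ≤ m n) → (∀ n, 1 ≤ k n) → (∀ n, 1 ≤ l n) →
    ∀ lam : ℝ, 0 < lam → lam ≤ 1 / 20 → ∀ (n x : ℕ) (A : Finset Vx),
    0 ≤ SS k l lam n x A ∧ SS k l lam n x A ≤ 1 / 4 ∧ 0 ≤ EE k l lam n x A ∧
    (∀ n' y i, SS k l lam n x (insert (Vx.h n' y i) A) = SS k l lam n x A ∧
      SS k l lam n x (A.erase (Vx.h n' y i)) = SS k l lam n x A) ∧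
    gen (nbx m k l) lam (SS k l lam n x) A ≤
      -(lam * (A ∩ Ext l n x).card) + (if Vx.h n x 0 ∈ A then 4 * lam ^ 2 else 0) +
        EE k l lam n x A

def St_CONN2 : Prop :=
  ∀ (m k l : ℕ → ℕ), (∀ n, 1 ≤ m n) → (∀ n, 1 ≤ k n) → (∀ n, 1 ≤ l n) →
    ∀ lam : ℝ, 0 < lam → lam ≤ 1 / 20 → ∀ (n x : ℕ) (A : Finset Vx),
    0 ≤ HH k l lam n x A ∧
    gen (nbx m k l) lam (HH k l lam n x) A ≤
      -(1 / 2 * (nlf k n x A : ℝ)) + lam * (2 / 19 : ℝ) ^ k n * (if Vx.h n x 0 ∈ A then 1 else 0) +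
        lam ^ 2 * oo (l n) lam * nch k n x A

/-- Global Lyapunov function. -/
def St_UPS : Prop :=
  ∀ (m k l : ℕ → ℕ), (∀ n, 1 ≤ m n) → (∀ n, 1 ≤ k n) → (∀ n, 1 ≤ l n) →
    ∀ lam : ℝ, 0 < lam → lam ≤ 1 / 20 → ∀ W : ℕ → ℝ, (∀ n, 0 < W n) →
    (∀ n, W (n + 1) * Ts lam (m (n + 1)) * oo (l n) lam * (2 / 19 : ℝ) ^ k n ≤ W n) →
    (∀ n, W n * Ts lam (m n) * (1 / 19 : ℝ) ^ k n * oo (l n) lam ≤ W (n + 1)) →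
    (∀ n, Ts lam (m (n + 1)) * oo (l n) lam ^ 2 ≤ 1) →
    ∀ ε : ℝ, 0 ≤ ε → (∀ n, 16 * ε ≤ W n) →
    ∃ f : Finset Vx → ℝ≥0∞, (∀ A, f A ≠ ⊤) ∧ ∀ A : Finset Vx, (∀ v ∈ A, vld m k l v) →
      up (nbx m k l) lam f A +
        (ENNReal.ofReal (if (A ∩ cl m 0 0).Nonempty then W 0 / 4 else 0) +
          ENNReal.ofReal (if A = ∅ then 0 else ε / 4)) ≤ rate (nbx m k l) lam A * f A

/-! ## Lower bounds in the graph -/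

def St_VD : Prop :=
  ∀ (m k l : ℕ → ℕ), (∀ n, 200 ≤ m n) → (∀ n, 1 ≤ l n) →
    ∀ lam : ℝ, 1 / 20 ≤ lam → lam ≤ 1 / 16 → ∀ (W0 : Finset Vx) (J : Finset (ℕ × ℕ)),
    (∀ j ∈ J, cl m j.1 j.2 ⊆ W0) → (∀ n y i, Vx.h n y i ∈ W0 → (n, y) ∈ J ∧ i < m n) →
    Vf m J ∅ = 0 ∧ (∀ A, 0 ≤ Vf m J A) ∧
    (∀ A w, isConn w = true → Vf m J (insert w A) ≤ Vf m J A + 4) ∧
    (∀ A, A ⊆ W0 → A ≠ ∅ → ¬ Tgt m J A →
      gen (rest (nbx m k l) W0) lam (Vf m J) A ≤ -(Vf m J A / 2 + 4 * lam + 1 / 2))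

def St_OUT : Prop :=
  ∀ (m k l : ℕ → ℕ), (∀ n, 200 ≤ m n) → (∀ n, 1 ≤ k n) → (∀ n, 1 ≤ l n) →
    ∀ lam : ℝ, 1 / 20 ≤ lam → lam ≤ 1 / 16 → ∀ (n x : ℕ) (u : Finset Vx → ℝ),
    IsHit (rest (nbx m k l) (cl m n x ∪ Wout m k l n x)) lam (cl m n x ∪ Wout m k l n x)
      (Tgt m (Jout k n x)) u →
    ∀ A, A ⊆ cl m n x ∪ Wout m k l n x → 4 ≤ (A ∩ cl m n x).card →
      1 - 2 * (20 * (m n : ℝ) * (10584 * 11 ^ k n) / (lam ^ 2 * oo (l n) lam * TT lam (m n)) +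
        (m n : ℝ) * del lam (m n) 5 / TT lam (m n)) ≤ u A

def St_UPW : Prop :=
  ∀ (m k l : ℕ → ℕ), (∀ n, 200 ≤ m n) → (∀ n, 1 ≤ k n) → (∀ n, 1 ≤ l n) →
    ∀ lam : ℝ, 1 / 20 ≤ lam → lam ≤ 1 / 16 → ∀ (n y : ℕ) (u : Finset Vx → ℝ),
    IsHit (rest (nbx m k l) (cl m (n + 1) y ∪ Wup m k l n y)) lam (cl m (n + 1) y ∪ Wup m k l n y)
      (Tgt m (Jup k n y)) u →
    (∀ A, A ⊆ cl m (n + 1) y ∪ Wup m k l n y → 4 ≤ (A ∩ cl m (n + 1) y).card →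
      1 - 2 * (20 * (m (n + 1) : ℝ) * (24 * 21 ^ (k n + 2)) /
          (lam ^ 2 * oo (l n) lam * TT lam (m (n + 1))) +
        (m (n + 1) : ℝ) * del lam (m (n + 1)) 5 / TT lam (m (n + 1))) ≤ u A) ∧
    (∀ A, A ⊆ cl m (n + 1) y ∪ Wup m k l n y → (A ∩ cl m (n + 1) y).Nonempty →
      (1 / 21 : ℝ) ^ 2 * (oo (l n) lam / (24 * 21 ^ (k n + 2))) ≤ u A)

/-- First and last stage, inside the root hub. -/
def St_START : Prop :=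
  ∀ (m k l : ℕ → ℕ), (∀ n, 200 ≤ m n) → (∀ n, 1 ≤ k n) → (∀ n, 1 ≤ l n) →
    ∀ lam : ℝ, 1 / 20 ≤ lam → lam ≤ 1 / 16 →
    (∀ u, IsHit (rest (nbx m k l) (cl m 0 0)) lam (cl m 0 0) (Tgt m {(0, 0)}) u →
      1 / 8 ≤ u {Vx.h 0 0 1}) ∧
    (∀ u, IsHit (rest (nbx m k l) (cl m 0 0)) lam (cl m 0 0) (fun A => Vx.h 0 0 1 ∈ A) u →
      ∀ A, A ⊆ cl m 0 0 → A.Nonempty → 1 / 21 ≤ u A)

/-! ## Non-explosion -/

def St_NEX : Prop :=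
  ∀ (m k l : ℕ → ℕ), (∀ n, 1 ≤ m n ∧ m n ≤ m (n + 1) ∧ m (n + 1) ≤ 2 * m n) → (∀ n, 1 ≤ l n) →
    ∀ lam : ℝ, 0 < lam → ∃ (h : Finset Vx → ℝ≥0∞) (C c : ℝ≥0∞), C ≠ ⊤ ∧ c ≠ ⊤ ∧ (∀ A, h A ≠ ⊤) ∧
      ∀ A : Finset Vx, (∀ v ∈ A, vld m k l v) →
        up (nbx m k l) lam h A ≤ (rate (nbx m k l) lam A + C) * h A ∧
        rate (nbx m k l) lam A ≤ c * (h A + 1)

/-! ## The connected graph -/

/-- Labels of level `n` hubs are below `2 ^ lab k n`. -/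
def lab (k : ℕ → ℕ) (n : ℕ) : ℕ := ∑ i ∈ Finset.range n, k i

/-- The vertices of the component of the root hub. -/
def okv (m k l : ℕ → ℕ) : Vx → Prop
  | .h n y i => i < m n ∧ y < 2 ^ lab k n
  | .t n i y => i ≤ k n ∧ y < 2 ^ (lab k n + i)
  | .p n j y => j < l n ∧ y < 2 ^ lab k (n + 1)

instance okvDec (m k l : ℕ → ℕ) : DecidablePred (okv m k l) := fun v => by
  cases v <;> unfold okv <;> infer_instance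

/-- Symmetry and connectedness. -/
def St_GRAPH : Prop :=
  ∀ (m k l : ℕ → ℕ), (∀ n, 1 ≤ m n) → (∀ n, 1 ≤ l n) →
    (∀ v w, okv m k l v → w ∈ nbx m k l v → okv m k l w ∧ v ∈ nbx m k l w ∧ w ≠ v) ∧
    (∀ v, okv m k l v → Relation.ReflTransGen
      (fun a b => okv m k l a ∧ okv m k l b ∧ b ∈ nbx m k l a) v (Vx.h 0 0 0))

/-- Transport to a subtype closed under `nb`. -/
def St_SUB : Prop :=
  ∀ (V : Type) [DecidableEq V] (P : V → Prop) [DecidablePred P] (nb : V → Finset V)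
    (nb' : {v // P v} → Finset {v // P v}),
    (∀ v, (nb' v).map (Function.Embedding.subtype P) = nb v.1) → ∀ lam : ℝ,
    (∀ (f : Finset V → ℝ≥0∞) (A : Finset {v // P v}),
      up nb' lam (fun B => f (B.map (Function.Embedding.subtype P))) A =
        up nb lam f (A.map (Function.Embedding.subtype P))) ∧
    (∀ (A : Finset {v // P v}), rate nb' lam A = rate nb lam (A.map (Function.Embedding.subtype P)))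

/-! ## Choice of the parameters -/

def St_TUNE : Prop :=
  ∃ (m k l : ℕ → ℕ), (∀ n, 200 ≤ m n ∧ m n ≤ m (n + 1) ∧ m (n + 1) ≤ 2 * m n ∧ 1 ≤ k n ∧ 1 ≤ l n) ∧
    (∀ n, Ts (1 / 20) (m n) * Ts (1 / 20) (m (n + 1)) * oo (l n) (1 / 20) ^ 2 *
      (2 * (1 / 19 : ℝ) ^ 2) ^ k n ≤ 1) ∧
    (∀ n, Ts (1 / 20) (m (n + 1)) * oo (l n) (1 / 20) ^ 2 ≤ 1) ∧
    (∀ lam : ℝ, 0 < lam → lam < 1 / 20 → ∃ N, ∀ n, N ≤ n →
      Ts lam (m (n + 1)) * oo (l n) lam ≤ 1 ∧ Ts lam (m n) * oo (l n) lam ≤ 1) ∧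
    (∀ lam : ℝ, 1 / 20 ≤ lam → lam ≤ 1 / 16 → ∀ n,
      2 * (20 * (m n : ℝ) * (10584 * 11 ^ k n) / (lam ^ 2 * oo (l n) lam * TT lam (m n)) +
        (m n : ℝ) * del lam (m n) 5 / TT lam (m n)) ≤ 1 / ((n : ℝ) + 2) ^ 2) ∧
    (∀ lam : ℝ, 1 / 20 < lam → lam ≤ 1 / 16 → ∃ N, ∀ n, N ≤ n →
      2 * (20 * (m (n + 1) : ℝ) * (24 * 21 ^ (k n + 2)) /
          (lam ^ 2 * oo (l n) lam * TT lam (m (n + 1))) +
        (m (n + 1) : ℝ) * del lam (m (n + 1)) 5 / TT lam (m (n + 1))) ≤ 1 / ((n : ℝ) + 2) ^ 2)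

end Pool.Agent.W845.CP
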