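import Mathlib
import Pool.Agent.W845.CP.Stmts

set_option autoImplicit false
set_option linter.style.haveILetI false
set_option linter.unusedSectionVars false
open scoped BigOperators ENNReal

/-!
Project CP: general lemmas on the generator.
-/

namespace Pool.Agent.W845.CP

section Base

variable {V : Type} [DecidableEq V]

/-- only infections of healthy vertices matter. -/
lemma gen_sdiff (nb : V → Finset V) (f : Finset V → ℝ) (A : Finset V) (x : V) :
    ∑ y ∈ nb x, (f (insert y A) - f A) = ∑ y ∈ nb x \ A, (f (insert y A) - f A) := by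
  rw [← Finset.sum_sdiff (Finset.inter_subset_left (s₁ := nb x) (s₂ := A))]
  rw [Finset.sdiff_inter_self_left]
  have : ∑ y ∈ nb x ∩ A, (f (insert y A) - f A) = 0 := by
    refine Finset.sum_eq_zero fun y hy => ?_
    rw [Finset.insert_eq_self.2 (Finset.mem_inter.1 hy).2, sub_self]
  rw [this, add_zero]

lemma gen_def' (nb : V → Finset V) (lam : ℝ) (f : Finset V → ℝ) (A : Finset V) :
    gen nb lam f A = ∑ x ∈ A, (f (A.erase x) - f A) +
      lam * ∑ x ∈ A, ∑ y ∈ nb x \ A, (f (insert y A) - f A) := by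
  unfold gen
  simp_rw [gen_sdiff]

/-- real version of `up`. -/
noncomputable def upR (nb : V → Finset V) (lam : ℝ) (f : Finset V → ℝ) (A : Finset V) : ℝ :=
  ∑ x ∈ A, f (A.erase x) + lam * ∑ x ∈ A, ∑ y ∈ nb x \ A, f (insert y A)

/-- real version of `rate`. -/
noncomputable def rateR (nb : V → Finset V) (lam : ℝ) (A : Finset V) : ℝ :=
  (A.card : ℝ) + lam * ∑ x ∈ A, ((nb x \ A).card : ℝ)

lemma gen_eq (nb : V → Finset V) (lam : ℝ) (f : Finset V → ℝ) (A : Finset V) :
    gen nb lam f A = upR nb lam f A - rateR nb lam A * f A := by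
  rw [gen_def']
  unfold upR rateR
  simp only [Finset.sum_sub_distrib, Finset.sum_const, nsmul_eq_mul]
  rw [← Finset.sum_mul]
  ring

lemma rateR_nonneg (nb : V → Finset V) (lam : ℝ) (hl : 0 ≤ lam) (A : Finset V) :
    0 ≤ rateR nb lam A := by
  unfold rateR; positivity

lemma rate_ofReal (nb : V → Finset V) (lam : ℝ) (hl : 0 ≤ lam) (A : Finset V) :
    rate nb lam A = ENNReal.ofReal (rateR nb lam A) := by
  unfold rate rateR
  rw [ENNReal.ofReal_add (by positivity) (by positivity), ENNReal.ofReal_natCast,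
    ENNReal.ofReal_mul hl, ENNReal.ofReal_sum_of_nonneg (fun _ _ => by positivity)]
  simp

lemma upR_nonneg (nb : V → Finset V) (lam : ℝ) (hl : 0 ≤ lam) (f : Finset V → ℝ)
    (hf : ∀ A, 0 ≤ f A) (A : Finset V) : 0 ≤ upR nb lam f A := by
  unfold upR
  refine add_nonneg (Finset.sum_nonneg fun _ _ => hf _) (mul_nonneg hl ?_)
  exact Finset.sum_nonneg fun _ _ => Finset.sum_nonneg fun _ _ => hf _

lemma up_ofReal (nb : V → Finset V) (lam : ℝ) (hl : 0 ≤ lam) (f : Finset V → ℝ)
    (hf : ∀ A, 0 ≤ f A) (A : Finset V) :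
    up nb lam (fun B => ENNReal.ofReal (f B)) A = ENNReal.ofReal (upR nb lam f A) := by
  unfold up upR
  rw [ENNReal.ofReal_add (Finset.sum_nonneg fun _ _ => hf _)
    (mul_nonneg hl (Finset.sum_nonneg fun _ _ => Finset.sum_nonneg fun _ _ => hf _)),
    ENNReal.ofReal_mul hl, ENNReal.ofReal_sum_of_nonneg (fun _ _ => hf _),
    ENNReal.ofReal_sum_of_nonneg (fun _ _ => Finset.sum_nonneg fun _ _ => hf _)]
  congr 2
  refine Finset.sum_congr rfl fun x _ => ?_
  rw [ENNReal.ofReal_sum_of_nonneg (fun _ _ => hf _)]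

/-- from a drift inequality to the inequality between jump rates. -/
lemma up_le_of_gen (nb : V → Finset V) (lam : ℝ) (hl : 0 ≤ lam) (f : Finset V → ℝ)
    (hf : ∀ A, 0 ≤ f A) (A : Finset V) (D : ℝ) (hD : 0 ≤ D) (h : gen nb lam f A ≤ -D) :
    up nb lam (fun B => ENNReal.ofReal (f B)) A + ENNReal.ofReal D ≤
      rate nb lam A * ENNReal.ofReal (f A) := by
  rw [up_ofReal nb lam hl f hf, rate_ofReal nb lam hl, ← ENNReal.ofReal_mul (rateR_nonneg nb lam hl A),
    ← ENNReal.ofReal_add (upR_nonneg nb lam hl f hf A) hD]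
  refine ENNReal.ofReal_le_ofReal ?_
  rw [gen_eq] at h
  linarith

/-- same with an upper bound `gen f ≤ C f`. -/
lemma up_le_of_gen' (nb : V → Finset V) (lam : ℝ) (hl : 0 ≤ lam) (f : Finset V → ℝ)
    (hf : ∀ A, 0 ≤ f A) (A : Finset V) (C : ℝ) (hC : 0 ≤ C) (h : gen nb lam f A ≤ C * f A) :
    up nb lam (fun B => ENNReal.ofReal (f B)) A ≤
      (rate nb lam A + ENNReal.ofReal C) * ENNReal.ofReal (f A) := by
  rw [up_ofReal nb lam hl f hf, rate_ofReal nb lam hl,
    ← ENNReal.ofReal_add (rateR_nonneg nb lam hl A) hC,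
    ← ENNReal.ofReal_mul (add_nonneg (rateR_nonneg nb lam hl A) hC)]
  refine ENNReal.ofReal_le_ofReal ?_
  rw [gen_eq] at h
  linarith

/-- lower bound. -/
lemma le_up_of_gen (nb : V → Finset V) (lam : ℝ) (hl : 0 ≤ lam) (f : Finset V → ℝ)
    (hf : ∀ A, 0 ≤ f A) (A : Finset V) (δ : ℝ) (hδ : 0 ≤ δ) (h : δ * f A ≤ gen nb lam f A) :
    (rate nb lam A + ENNReal.ofReal δ) * ENNReal.ofReal (f A) ≤
      up nb lam (fun B => ENNReal.ofReal (f B)) A := by
  rw [up_ofReal nb lam hl f hf, rate_ofReal nb lam hl,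
    ← ENNReal.ofReal_add (rateR_nonneg nb lam hl A) hδ,
    ← ENNReal.ofReal_mul (add_nonneg (rateR_nonneg nb lam hl A) hδ)]
  refine ENNReal.ofReal_le_ofReal ?_
  rw [gen_eq] at h
  linarith

lemma gen_sub (nb : V → Finset V) (lam : ℝ) (f g : Finset V → ℝ) (A : Finset V) :
    gen nb lam (fun B => f B - g B) A = gen nb lam f A - gen nb lam g A := by
  simp only [gen_eq, upR, Finset.sum_sub_distrib]; ring

lemma gen_add (nb : V → Finset V) (lam : ℝ) (f g : Finset V → ℝ) (A : Finset V) :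
    gen nb lam (fun B => f B + g B) A = gen nb lam f A + gen nb lam g A := by
  simp only [gen_eq, upR, Finset.sum_add_distrib]; ring

lemma gen_smul (nb : V → Finset V) (lam c : ℝ) (f : Finset V → ℝ) (A : Finset V) :
    gen nb lam (fun B => c * f B) A = c * gen nb lam f A := by
  simp only [gen_eq, upR, ← Finset.mul_sum]; ring

lemma gen_const (nb : V → Finset V) (lam c : ℝ) (A : Finset V) :
    gen nb lam (fun _ => c) A = 0 := by
  simp [gen]

lemma gen_sum {ι : Type} (s : Finset ι) (nb : V → Finset V) (lam : ℝ) (f : ι → Finset V → ℝ)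
    (A : Finset V) :
    gen nb lam (fun B => ∑ i ∈ s, f i B) A = ∑ i ∈ s, gen nb lam (f i) A := by
  classical
  induction s using Finset.induction_on with
  | empty => simp [gen]
  | insert a s ha ih =>
    simp only [Finset.sum_insert ha]
    rw [gen_add, ih]

/-- Generator of an additive functional with nonnegative weights. -/
lemma gen_additive_le (nb : V → Finset V) (lam : ℝ) (hl : 0 ≤ lam) (w : V → ℝ) (hw : ∀ v, 0 ≤ w v)
    (A : Finset V) :
    gen nb lam (fun B => ∑ v ∈ B, w v) A ≤ ∑ x ∈ A, (-(w x) + lam * ∑ y ∈ nb x, w y) := by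
  unfold gen
  rw [Finset.sum_add_distrib, ← Finset.mul_sum]
  refine add_le_add (le_of_eq ?_) (mul_le_mul_of_nonneg_left ?_ hl)
  · refine Finset.sum_congr rfl fun x hx => ?_
    beta_reduce
    rw [← Finset.add_sum_erase A w hx]; ring
  · refine Finset.sum_le_sum fun x _ => Finset.sum_le_sum fun y _ => ?_
    by_cases hy : y ∈ A
    · rw [Finset.insert_eq_self.2 hy, sub_self]; exact hw y
    · beta_reduce
      rw [Finset.sum_insert hy]; simp

/-- Minimum principle. -/
theorem mp : St_MP := by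
  intro V _ nb lam hl R hR F h0 hF A hA
  by_contra hneg
  push Not at hneg
  obtain ⟨B, hB, hBmin⟩ := Finset.exists_min_image R.powerset F ⟨A, Finset.mem_powerset.2 hA⟩
  -- among the minimisers choose one with the smallest cardinality
  obtain ⟨C, hC, hCmin⟩ := Finset.exists_min_image (R.powerset.filter (fun D => F D = F B))
    Finset.card ⟨B, by simp [Finset.mem_powerset.1 hB]⟩
  have hCR : C ⊆ R := by
    have := (Finset.mem_filter.1 hC).1
    exact Finset.mem_powerset.1 this
  have hCF : F C = F B := (Finset.mem_filter.1 hC).2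
  have hFC : F C < 0 := by
    rw [hCF]; exact lt_of_le_of_lt (hBmin A (Finset.mem_powerset.2 hA)) hneg
  have hle : ∀ D, D ⊆ R → F C ≤ F D := fun D hD => by
    rw [hCF]; exact hBmin D (Finset.mem_powerset.2 hD)
  have hCne : C ≠ ∅ := by
    rintro rfl; linarith
  have hgen : gen nb lam F C ≤ 0 := by
    rcases hF C hCR hCne with h | h
    · linarith
    · exact h
  have h2 : 0 ≤ lam * ∑ x ∈ C, ∑ y ∈ nb x, (F (insert y C) - F C) := by
    refine mul_nonneg hl (Finset.sum_nonneg fun x hx => Finset.sum_nonneg fun y hy => ?_)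
    have := hle (insert y C) (Finset.insert_subset (hR x (hCR hx) hy) hCR)
    linarith
  have h1 : ∀ x ∈ C, 0 ≤ F (C.erase x) - F C := fun x hx => by
    have := hle (C.erase x) ((Finset.erase_subset _ _).trans hCR)
    linarith
  have h3 : ∑ x ∈ C, (F (C.erase x) - F C) ≤ 0 := by
    unfold gen at hgen; linarith
  obtain ⟨x, hx⟩ := Finset.nonempty_iff_ne_empty.2 hCne
  have h4 : F (C.erase x) - F C ≤ 0 := by
    by_contra h5
    push Not at h5
    have := Finset.sum_pos' h1 ⟨x, hx, h5⟩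
    linarith
  have h5 : F (C.erase x) = F B := by
    rw [← hCF]; exact le_antisymm (by linarith) (hle _ ((Finset.erase_subset _ _).trans hCR))
  have h6 := hCmin (C.erase x) (by
    simp only [Finset.mem_filter, Finset.mem_powerset]
    exact ⟨(Finset.erase_subset _ _).trans hCR, h5⟩)
  have h7 := Finset.card_erase_lt_of_mem hx
  omega

/-- Lower bound for a harmonic monotone function: keep the infections in `U` only. -/
lemma use_lower (nb : V → Finset V) (lam : ℝ) (hl : 0 ≤ lam) (R : Finset V)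
    (hR : ∀ x ∈ R, nb x ⊆ R) (u : Finset V → ℝ)
    (h0 : ∀ A, A ⊆ R → 0 ≤ u A) (hm : ∀ A B, A ⊆ B → B ⊆ R → u A ≤ u B)
    (A : Finset V) (hA : A ⊆ R) (hh : gen nb lam u A = 0)
    (U : V → Finset V) (hU : ∀ x ∈ A, U x ⊆ nb x) :
    lam * ∑ x ∈ A, ∑ y ∈ U x, u (insert y A) ≤
      ((A.card : ℝ) + lam * ∑ x ∈ A, ((U x).card : ℝ)) * u A := by
  have h1 : ∑ x ∈ A, (u (A.erase x) - u A) ≥ -((A.card : ℝ) * u A) := by
    have : ∑ x ∈ A, (u (A.erase x) - u A) ≥ ∑ x ∈ A, (-(u A)) :=
      Finset.sum_le_sum fun x _ => by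
        have := h0 (A.erase x) ((Finset.erase_subset _ _).trans hA); linarith
    simpa using this
  have h2 : ∑ x ∈ A, ∑ y ∈ nb x, (u (insert y A) - u A) ≥
      ∑ x ∈ A, ∑ y ∈ U x, (u (insert y A) - u A) := by
    refine Finset.sum_le_sum fun x hx => Finset.sum_le_sum_of_subset_of_nonneg (hU x hx) ?_
    intro y hy _
    have := hm A (insert y A) (Finset.subset_insert _ _)
      (Finset.insert_subset (hR x (hA hx) hy) hA)
    linarith
  have h3 : ∑ x ∈ A, ∑ y ∈ U x, (u (insert y A) - u A) =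
      ∑ x ∈ A, ∑ y ∈ U x, u (insert y A) - (∑ x ∈ A, ((U x).card : ℝ)) * u A := by
    simp only [Finset.sum_sub_distrib, Finset.sum_const, nsmul_eq_mul]
    rw [← Finset.sum_mul]
  unfold gen at hh
  have h4 := mul_le_mul_of_nonneg_left h2 hl
  rw [h3] at h4
  nlinarith

end Base

end Pool.Agent.W845.CP
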