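import Mathlib
import Pool.Agent.W845.CP.Base

set_option autoImplicit false
set_option linter.style.haveILetI false
set_option linter.unusedSectionVars false
open scoped BigOperators ENNReal

/-!
Project CP: more general lemmas, statement of the path pullback `St_PB`.
-/

namespace Pool.Agent.W845.CP

/-- Generator bounds for the path functionals in the graph. -/
def St_PB : Prop :=
  ∀ (m k l : ℕ → ℕ), (∀ n, 1 ≤ m n) → (∀ n, 1 ≤ l n) →
    ∀ lam : ℝ, 0 < lam → lam ≤ 1 / 16 → ∀ (n y : ℕ) (A : Finset Vx),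
    (0 ≤ O1 l lam n y A ∧ O1 l lam n y A ≤ 15 / 7 ∧ 0 ≤ O2 l lam n y A ∧
      O2 l lam n y A ≤ 15 / 7) ∧
    (gen (nbx m k l) lam (O1 l lam n y) A ≤
      -(if Vx.p n 0 y ∈ A then 1 else 0) + (if Vx.t n (k n) y ∈ A then 2 * lam else 0) +
        (if Vx.h (n + 1) y 0 ∈ A then lam * oo (l n) lam else 0)) ∧
    (gen (nbx m k l) lam (O2 l lam n y) A ≤
      -(if Vx.p n (l n - 1) y ∈ A then 1 else 0) +
        (if Vx.t n (k n) y ∈ A then lam * oo (l n) lam else 0) +
        (if Vx.h (n + 1) y 0 ∈ A then 2 * lam else 0)) ∧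
    (∀ W0 : Finset Vx, (∀ j, j < l n → Vx.p n j y ∈ W0) →
      -(if Vx.p n 0 y ∈ A then 1 else 0) ≤ gen (rest (nbx m k l) W0) lam (O1 l lam n y) A ∧
      -(if Vx.p n (l n - 1) y ∈ A then 1 else 0) ≤
        gen (rest (nbx m k l) W0) lam (O2 l lam n y) A)

section

variable {V : Type} [DecidableEq V]

/-- In a clique with at least 24 vertices one infected vertex leads to four infected vertices
with probability at least 1/8. -/
theorem clq (nb : V → Finset V) (lam : ℝ) (hl : 1 / 20 ≤ lam) (R : Finset V)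
    (hR : ∀ x ∈ R, nb x ⊆ R) (T : Finset V → Prop) (u : Finset V → ℝ)
    (hu : IsHit nb lam R T u) (K : Finset V) (hKR : K ⊆ R)
    (hK : ∀ x ∈ K, K.erase x ⊆ nb x) (hc : 24 ≤ K.card)
    (hT : ∀ A, A ⊆ R → 4 ≤ (A ∩ K).card → T A) :
    ∀ A, A ⊆ R → (A ∩ K).Nonempty → 1 / 8 ≤ u A := by
  have key : ∀ i : ℕ, i ≤ 3 → ∀ B, B ⊆ K → B.card = 4 - i → (1 / 2 : ℝ) ^ i ≤ u B := by
    intro i
    induction i with
    | zero =>
      intro _ B hB hcB
      have h4 : T B := hT B (hB.trans hKR) (by rw [Finset.inter_eq_left.2 hB]; omega)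
      rw [hu.one B (hB.trans hKR) h4]; norm_num
    | succ i ih =>
      intro hi B hB hcB
      have hBR := hB.trans hKR
      by_cases hTB : T B
      · rw [hu.one B hBR hTB]
        exact pow_le_one₀ (by norm_num) (by norm_num)
      have hh := hu.harm B hBR hTB
      have h1 := use_lower nb lam (by linarith) R hR u hu.nonneg hu.mono B hBR hh
        (fun _ => K \ B) (fun x hx => by
          intro y hy
          rw [Finset.mem_sdiff] at hy
          refine hK x (hB hx) (Finset.mem_erase.2 ⟨?_, hy.1⟩)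
          rintro rfl; exact hy.2 hx)
      have h2 : ∀ x ∈ B, ∀ y ∈ K \ B, (1 / 2 : ℝ) ^ i ≤ u (insert y B) := by
        intro x _ y hy
        rw [Finset.mem_sdiff] at hy
        refine ih (by omega) _ (Finset.insert_subset hy.1 hB) ?_
        rw [Finset.card_insert_of_notMem hy.2]; omega
      have hcard : ((K \ B).card : ℝ) = (K.card : ℝ) - B.card := by
        rw [Finset.card_sdiff_of_subset hB, Nat.cast_sub (Finset.card_le_card hB)]
      have h3 : (B.card : ℝ) * ((K \ B).card * (1 / 2 : ℝ) ^ i) ≤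
          ∑ x ∈ B, ∑ y ∈ K \ B, u (insert y B) := by
        calc (B.card : ℝ) * ((K \ B).card * (1 / 2 : ℝ) ^ i)
            = ∑ x ∈ B, ∑ y ∈ K \ B, (1 / 2 : ℝ) ^ i := by simp
          _ ≤ _ := Finset.sum_le_sum fun x hx => Finset.sum_le_sum fun y hy => h2 x hx y hy
      have hb : (B.card : ℝ) = 4 - (i + 1 : ℕ) := by
        rw [hcB, Nat.cast_sub (by omega)]; norm_num
      have hbpos : (0 : ℝ) < B.card := by
        rw [hcB]; exact_mod_cast (by omega : 0 < 4 - (i + 1))
      have hb4 : (B.card : ℝ) ≤ 4 := by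
        rw [hcB]; exact_mod_cast (by omega : 4 - (i + 1) ≤ 4)
      have hm : (24 : ℝ) ≤ K.card := by exact_mod_cast hc
      have hD : 1 ≤ lam * ((K \ B).card : ℝ) := by rw [hcard]; nlinarith
      simp only [Finset.sum_const, nsmul_eq_mul] at h1 h3
      have hpow : (0 : ℝ) < (1 / 2 : ℝ) ^ i := by positivity
      set D : ℝ := ((K \ B).card : ℝ)
      set b : ℝ := (B.card : ℝ)
      have h4 : lam * (b * (D * (1 / 2 : ℝ) ^ i)) ≤ (b + lam * (b * D)) * u B :=
        (mul_le_mul_of_nonneg_left h3 (by linarith)).trans h1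
      have h5 : lam * D * (1 / 2 : ℝ) ^ i ≤ (1 + lam * D) * u B := by
        have : b * (lam * D * (1 / 2 : ℝ) ^ i) ≤ b * ((1 + lam * D) * u B) := by nlinarith
        exact le_of_mul_le_mul_left this hbpos
      rw [pow_succ]
      by_contra hcon
      push Not at hcon
      have hu0 := hu.nonneg B hBR
      nlinarith
  intro A hA hne
  obtain ⟨x, hx⟩ := hne
  rw [Finset.mem_inter] at hx
  have h1 := key 3 le_rfl {x} (by simpa using hx.2) (by simp)
  have h2 := hu.mono {x} A (by simpa using hx.1) hA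
  norm_num at h1
  linarith

end

end Pool.Agent.W845.CP
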