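import Mathlib
import Pool.Agent.W845.CP.Base2

set_option autoImplicit false
set_option linter.style.haveILetI false
set_option linter.unusedSectionVars false
open scoped BigOperators ENNReal
open MeasureTheory ProbabilityTheory Filter

/-!
Project CP: final assembly, part 1 (transport to the connected graph, consequences of drift
inequalities for the contact process).
-/

namespace Pool.Agent.W845.CP

def vcode : Vx → ℕ × ℕ × ℕ × ℕ
  | .h n y i => (0, n, y, i)
  | .t n y i => (1, n, y, i)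
  | .p n y i => (2, n, y, i)

lemma vcode_inj : Function.Injective vcode := by
  intro a b h
  cases a <;> cases b <;> simp_all [vcode]

instance : Countable Vx := vcode_inj.countable

abbrev VV (m k l : ℕ → ℕ) := {v : Vx // okv m k l v}

abbrev em (m k l : ℕ → ℕ) : VV m k l ↪ Vx := Function.Embedding.subtype (okv m k l)

lemma okv_vld {m k l : ℕ → ℕ} {v : Vx} (h : okv m k l v) : vld m k l v := by
  cases v <;> exact h.1

section General

variable {V : Type} [DecidableEq V]

/-- almost sure properties of a jump. -/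
lemma jump_ae (nb : V → Finset V) (lam : ℝ) (A : Finset V) (P : Finset V → Prop)
    (h0 : A = ∅ → P ∅) (h1 : ∀ x ∈ A, P (A.erase x))
    (h2 : ∀ x ∈ A, ∀ y ∈ nb x, y ∉ A → P (insert y A)) :
    ∀ᵐ B ∂(jump nb lam A), P B := by
  classical
  rw [ae_iff, ← lintegral_indicator_one (DiscreteMeasurableSpace.forall_measurableSet _)]
  by_cases hA : A = ∅
  · subst hA
    rw [lintegral_jump_empty]
    simp [h0 rfl]
  · rw [lintegral_jump nb lam A hA]
    unfold up
    rw [Finset.sum_eq_zero, Finset.sum_eq_zero, mul_zero, add_zero]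
    · intro x hx
      refine Finset.sum_eq_zero fun y hy => ?_
      rw [Finset.mem_sdiff] at hy
      simp [h2 x hx y hy.1 hy.2]
    · intro x hx
      simp [h1 x hx]

/-- From the inequality between rates to the inequality for the jump measure. -/
lemma jump_ineq (nb : V → Finset V) (lam : ℝ) (f g : Finset V → ℝ≥0∞) (hg : g ∅ = 0)
    (h : ∀ A, A ≠ ∅ → up nb lam f A + g A ≤ rate nb lam A * f A) :
    ∀ A, ∫⁻ B, f B ∂(jump nb lam A) + g A ≤ jump nb lam A Set.univ * f A := by
  intro A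
  by_cases hA : A = ∅
  · subst hA
    rw [lintegral_jump_empty, jump_univ_empty, hg]; simp
  · rw [lintegral_jump nb lam A hA, jump_univ nb lam A hA]
    exact h A hA

variable [Countable V]

/-- The standard almost sure facts. -/
lemma basic_ae (hS : St_STEP) (nb : V → Finset V) (lam : ℝ) (A0 : Finset V) :
    ∀ᵐ ω ∂(law (jump nb lam) (goodJ_jump nb lam) A0), ω 0 = (A0, 0) ∧
      (∀ k, (ω k).2 < (ω (k + 1)).2) ∧ ∀ k, (ω k).1 = ∅ → (ω (k + 1)).1 = ∅ := by
  have h := hS (Finset V) (jump nb lam) (goodJ_jump nb lam) A0 (fun A B => A = ∅ → B = ∅)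
    (fun A => jump_ae nb lam A _ (fun _ _ => rfl)
      (fun x hx hA => by subst hA; simp at hx)
      (fun x hx y _ _ hA => by subst hA; simp at hx))
  filter_upwards [h] with ω hω
  exact ⟨hω.1, fun k => (hω.2 k).2, fun k => (hω.2 k).1⟩

lemma T_strictMono {ω : ℕ → Finset V × ℝ} (h : ∀ k, (ω k).2 < (ω (k + 1)).2) :
    StrictMono (fun k => (ω k).2) := strictMono_nat_of_lt_succ h

lemma empty_absorb {ω : ℕ → Finset V × ℝ} (h : ∀ k, (ω k).1 = ∅ → (ω (k + 1)).1 = ∅)
    {j : ℕ} (hj : (ω j).1 = ∅) : ∀ k, j ≤ k → (ω k).1 = ∅ := by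
  intro k hk
  induction k, hk using Nat.le_induction with
  | base => exact hj
  | succ k _ ih => exact h k ih

/-- At the `k`-th jump time the state is `Y_k`. -/
lemma infected_at {ω : ℕ → Finset V × ℝ} (h : ∀ k, (ω k).2 < (ω (k + 1)).2) (k : ℕ) :
    infected ω (ω k).2 = {x | x ∈ (ω k).1} := by
  have hm := T_strictMono h
  ext x
  simp only [infected, Set.mem_ofPred_eq]
  constructor
  · rintro ⟨j, h1, h2, h3⟩
    have e1 : j ≤ k := hm.le_iff_le.1 h1
    have e2 : k < j + 1 := hm.lt_iff_lt.1 h2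
    have : j = k := by omega
    rwa [this] at h3
  · intro hx
    exact ⟨k, le_rfl, h k, hx⟩

/-- Summability of the holding times fails. -/
lemma sum_hold_top {ω : ℕ → Finset V × ℝ} (h : ∀ k, (ω k).2 < (ω (k + 1)).2)
    (hT : ∀ b : ℝ, ∃ k, b < (ω k).2) (K : ℕ) (c : ℝ≥0∞) (hc : c ≠ 0) (g : ℕ → ℝ≥0∞)
    (hg : ∀ k, K ≤ k → c ≤ g k) :
    ∑' k, g k * ENNReal.ofReal ((ω (k + 1)).2 - (ω k).2) = ⊤ := by
  have hm := T_strictMono h
  have key : ∀ N, K ≤ N → c * ENNReal.ofReal ((ω N).2 - (ω K).2) ≤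
      ∑' k, g k * ENNReal.ofReal ((ω (k + 1)).2 - (ω k).2) := by
    intro N hN
    have h1 : ENNReal.ofReal ((ω N).2 - (ω K).2) =
        ∑ k ∈ Finset.Ico K N, ENNReal.ofReal ((ω (k + 1)).2 - (ω k).2) := by
      rw [← ENNReal.ofReal_sum_of_nonneg (fun k _ => by have := h k; linarith),
        Finset.sum_Ico_sub (fun k => (ω k).2) hN]
    rw [h1, Finset.mul_sum]
    refine le_trans (Finset.sum_le_sum fun k hk => ?_)
      (ENNReal.sum_le_tsum (Finset.Ico K N))
    exact mul_le_mul_left (hg k (Finset.mem_Ico.1 hk).1) _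
  by_contra hne
  set S := ∑' k, g k * ENNReal.ofReal ((ω (k + 1)).2 - (ω k).2) with hS
  have hSlt : S / c < ⊤ := ENNReal.div_lt_top hne hc
  obtain ⟨k, hk⟩ := hT ((S / c).toReal + (ω K).2)
  have hKk : K ≤ max K k := le_max_left _ _
  have h2 := key (max K k) hKk
  have h3 : (ω k).2 ≤ (ω (max K k)).2 := hm.monotone (le_max_right _ _)
  have h4 : ENNReal.ofReal ((S / c).toReal) < ENNReal.ofReal ((ω (max K k)).2 - (ω K).2) := by
    rw [ENNReal.ofReal_lt_ofReal_iff_of_nonneg ENNReal.toReal_nonneg]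
    linarith
  rw [ENNReal.ofReal_toReal hSlt.ne] at h4
  have h5 : S < c * ENNReal.ofReal ((ω (max K k)).2 - (ω K).2) := by
    by_cases hct : c = ⊤
    · subst hct
      have : ENNReal.ofReal ((ω (max K k)).2 - (ω K).2) ≠ 0 := (lt_of_le_of_lt bot_le h4).ne'
      rw [ENNReal.top_mul this]
      exact lt_top_iff_ne_top.2 hne
    · rw [ENNReal.div_lt_iff (Or.inl hc) (Or.inl hct)] at h4
      rwa [mul_comm] at h4
  exact absurd h2 (not_le.2 h5)

end General

end Pool.Agent.W845.CP
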