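import Mathlib
import Pool.Agent.W845.CP.Fin1

set_option autoImplicit false
set_option linter.style.haveILetI false
set_option linter.unusedSectionVars false
open scoped BigOperators ENNReal
open MeasureTheory ProbabilityTheory Filter

/-!
Project CP: final assembly, part 2 (extinction statements).
-/

namespace Pool.Agent.W845.CP

section General

variable {V : Type} [DecidableEq V] [Countable V]

/-- Extinction of the jump chain. -/
lemma ext_ae (hS : St_STEP) (hO : St_OCC1) (nb : V → Finset V) (lam : ℝ) (A0 : Finset V)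
    (hT : ∀ᵐ ω ∂(law (jump nb lam) (goodJ_jump nb lam) A0),
      Tendsto (fun k => (ω k).2) atTop atTop)
    (f g : Finset V → ℝ≥0∞) (hg : g ∅ = 0) (hf : f A0 ≠ ⊤)
    (h : ∀ A, A ≠ ∅ → up nb lam f A + g A ≤ rate nb lam A * f A)
    (c : ℝ≥0∞) (hc : c ≠ 0) (hgc : ∀ A, A ≠ ∅ → c ≤ g A) :
    ∀ᵐ ω ∂(law (jump nb lam) (goodJ_jump nb lam) A0), ∃ k, (ω k).1 = ∅ := by
  have h1 := hO (Finset V) (jump nb lam) (goodJ_jump nb lam) A0 f g (jump_ineq nb lam f g hg h)
  have h2 : ∀ᵐ ω ∂(law (jump nb lam) (goodJ_jump nb lam) A0),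
      ∑' k, g (ω k).1 * ENNReal.ofReal ((ω (k + 1)).2 - (ω k).2) < ⊤ := by
    refine ae_lt_top' ?_ (lt_of_le_of_lt h1 (lt_top_iff_ne_top.2 hf)).ne
    refine AEMeasurable.ennreal_tsum fun k => ?_
    refine Measurable.aemeasurable ?_
    refine Measurable.mul ?_ ?_
    · exact (measurable_of_countable g).comp (by fun_prop)
    · exact ENNReal.measurable_ofReal.comp (by fun_prop)
  filter_upwards [h2, hT, basic_ae hS nb lam A0] with ω hω hTω hb
  by_contra hne
  push Not at hne
  refine absurd (sum_hold_top hb.2.1 (fun b => ?_) 0 c hc (fun k => g (ω k).1)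
    (fun k _ => hgc _ (hne k).ne_empty)) hω.ne
  exact (hTω.eventually_gt_atTop b).exists

/-- Local extinction. -/
lemma loc_ae (hS : St_STEP) (hO1 : St_OCC1) (hO2 : St_OCC2) (nb : V → Finset V) (lam : ℝ)
    (A0 : Finset V) (o : V)
    (f g : Finset V → ℝ≥0∞) (hg : g ∅ = 0) (hf : f A0 ≠ ⊤)
    (h : ∀ A, A ≠ ∅ → up nb lam f A + g A ≤ rate nb lam A * f A)
    (h1 : ∀ A, o ∈ A → 1 ≤ g A)
    (h2 : ∀ A, o ∉ A → ENNReal.ofReal lam * ((A.filter (fun x => o ∈ nb x)).card : ℝ≥0∞) ≤ g A) :
    ∀ᵐ ω ∂(law (jump nb lam) (goodJ_jump nb lam) A0),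
      ¬ (∀ t : ℝ, ∃ s, t ≤ s ∧ o ∈ infected ω s) := by
  classical
  have e1 := hO1 (Finset V) (jump nb lam) (goodJ_jump nb lam) A0 f g (jump_ineq nb lam f g hg h)
  have e2 : ∀ᵐ ω ∂(law (jump nb lam) (goodJ_jump nb lam) A0),
      ∑' k, g (ω k).1 * ENNReal.ofReal ((ω (k + 1)).2 - (ω k).2) < ⊤ := by
    refine ae_lt_top' ?_ (lt_of_le_of_lt e1 (lt_top_iff_ne_top.2 hf)).ne
    refine AEMeasurable.ennreal_tsum fun k => ?_
    refine Measurable.aemeasurable ?_
    refine Measurable.mul ?_ ?_
    · exact (measurable_of_countable g).comp (by fun_prop)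
    · exact ENNReal.measurable_ofReal.comp (by fun_prop)
  have e3 := hO2 (Finset V) (jump nb lam) (goodJ_jump nb lam) A0 f g {A | o ∈ A}
    (jump_ineq nb lam f g hg h) hf (by
      intro A hA
      have hA' : o ∉ A := hA
      rw [← lintegral_indicator_one (DiscreteMeasurableSpace.forall_measurableSet _)]
      by_cases hA0 : A = ∅
      · subst hA0
        rw [lintegral_jump_empty]; simp
      · rw [lintegral_jump nb lam A hA0]
        refine le_trans ?_ (h2 A hA')
        unfold up
        rw [Finset.sum_eq_zero, zero_add]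
        · refine mul_le_mul_right ?_ _
          have : ∀ x ∈ A, ∑ y ∈ nb x \ A,
              ({B : Finset V | o ∈ B} : Set (Finset V)).indicator (1 : Finset V → ℝ≥0∞)
                (insert y A) ≤ if o ∈ nb x then 1 else 0 := by
            intro x _
            have h3 : ∀ y ∈ nb x \ A, ({B : Finset V | o ∈ B} : Set (Finset V)).indicator
                (1 : Finset V → ℝ≥0∞) (insert y A) = if y = o then 1 else 0 := by
              intro y _
              by_cases hy : y = o
              · subst hy; simp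
              · rw [if_neg hy, Set.indicator_of_notMem]
                change ¬ (o ∈ insert y A)
                rw [Finset.mem_insert]
                rintro (h4 | h4)
                · exact hy h4.symm
                · exact hA' h4
            rw [Finset.sum_congr rfl h3, Finset.sum_ite_eq']
            split_ifs with h5 h6
            · exact le_rfl
            · exact absurd (Finset.mem_sdiff.1 h5).1 h6
            · exact zero_le_one
            · exact le_rfl
          refine (Finset.sum_le_sum this).trans (le_of_eq ?_)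
          rw [Finset.sum_ite, Finset.sum_const_zero, add_zero, Finset.sum_const, nsmul_eq_mul,
            mul_one]
        · intro x _
          rw [Set.indicator_of_notMem]
          change ¬ (o ∈ A.erase x)
          intro h4; exact hA' (Finset.mem_of_mem_erase h4))
  filter_upwards [e2, e3, basic_ae hS nb lam A0] with ω hω hfin hb hloc
  have hm := T_strictMono hb.2.1
  -- `o` is infected at arbitrarily large indices, and jump times are unbounded
  have hinf : ∀ K, ∃ k, K ≤ k ∧ o ∈ (ω k).1 := by
    intro K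
    obtain ⟨s, hs, k, h3, h4, h5⟩ := hloc (ω (K + 1)).2
    refine ⟨k, ?_, h5⟩
    have h6 : (ω (K + 1)).2 < (ω (k + 1)).2 := lt_of_le_of_lt hs h4
    have := hm.lt_iff_lt.1 h6
    omega
  have hunb : ∀ b : ℝ, ∃ k, b < (ω k).2 := by
    intro b
    obtain ⟨s, hs, k, _, h4, _⟩ := hloc b
    exact ⟨k + 1, lt_of_le_of_lt hs h4⟩
  obtain ⟨K, hK⟩ := hfin.bddAbove
  have hback : ∀ j, K < j → ∀ i, o ∈ (ω (j + i)).1 → o ∈ (ω j).1 := by
    intro j hj i
    induction i with
    | zero => intro h; exact h
    | succ i ih =>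
      intro h7
      by_contra h8
      have h9 : o ∉ (ω (j + i)).1 := fun h10 => h8 (ih h10)
      have : j + i ≤ K := hK ⟨h9, h7⟩
      omega
  have hall : ∀ j, K + 1 ≤ j → o ∈ (ω j).1 := by
    intro j hj
    obtain ⟨k, hk, hok⟩ := hinf j
    obtain ⟨i, rfl⟩ := Nat.exists_eq_add_of_le hk
    exact hback j (by omega) i hok
  exact absurd (sum_hold_top hb.2.1 hunb (K + 1) 1 one_ne_zero (fun k => g (ω k).1)
    (fun k hk => h1 _ (hall k hk))) hω.ne

end General

end Pool.Agent.W845.CP
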