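import Mathlib
import Pool.Agent.W845.CP.Fin2

set_option autoImplicit false
set_option linter.style.haveILetI false
set_option linter.unusedSectionVars false
open scoped BigOperators ENNReal
open MeasureTheory ProbabilityTheory Filter

/-!
Project CP: final assembly, part 3 (stages of the lower bound).
-/

namespace Pool.Agent.W845.CP

section General

variable {V : Type} [DecidableEq V]

/-- From every state in `S` the process reaches `S'` with probability at least `c`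
(in the strong form needed for `St_CHAIN`). -/
def Stage (nb : V → Finset V) (lam : ℝ) (S S' : Set (Finset V)) (c : ℝ) : Prop :=
  ∃ δ0 : ℝ, 0 < δ0 ∧ ∀ δ : ℝ, 0 < δ → δ ≤ δ0 → ∀ A ∈ S, ∃ u : Finset V → ℝ≥0∞,
    (∀ B, u B ≤ 1) ∧
    (∀ B, B ∉ S' → (jump nb lam B Set.univ + ENNReal.ofReal δ) * u B ≤
      ∫⁻ z, u z ∂(jump nb lam B)) ∧ ENNReal.ofReal c ≤ u A

lemma common_delta (p : ℕ → ℝ → Prop) (s : Finset ℕ)
    (h : ∀ i ∈ s, ∃ δ0 : ℝ, 0 < δ0 ∧ ∀ δ : ℝ, 0 < δ → δ ≤ δ0 → p i δ) :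
    ∃ δ0 : ℝ, 0 < δ0 ∧ ∀ δ : ℝ, 0 < δ → δ ≤ δ0 → ∀ i ∈ s, p i δ := by
  classical
  induction s using Finset.induction_on with
  | empty => exact ⟨1, one_pos, fun _ _ _ i hi => by simp at hi⟩
  | insert a s ha ih =>
    obtain ⟨d1, h1, h1'⟩ := ih (fun i hi => h i (Finset.mem_insert_of_mem hi))
    obtain ⟨d2, h2, h2'⟩ := h a (Finset.mem_insert_self _ _)
    refine ⟨min d1 d2, lt_min h1 h2, fun δ hδ hδ' i hi => ?_⟩
    rcases Finset.mem_insert.1 hi with rfl | hi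
    · exact h2' δ hδ (hδ'.trans (min_le_right _ _))
    · exact h1' δ hδ (hδ'.trans (min_le_left _ _)) i hi

lemma chainG [Countable V] (hC : St_CHAIN) (nb : V → Finset V) (lam : ℝ) (A0 : Finset V)
    (hT : ∀ᵐ ω ∂(law (jump nb lam) (goodJ_jump nb lam) A0),
      Tendsto (fun k => (ω k).2) atTop atTop)
    (r : ℕ) (S : ℕ → Set (Finset V)) (c : ℕ → ℝ) (hc0 : ∀ i, 0 ≤ c i) (hc1 : ∀ i, c i ≤ 1)
    (h0 : A0 ∈ S 0) (hst : ∀ i, i < r → Stage nb lam (S i) (S (i + 1)) (c i)) :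
    ENNReal.ofReal (∏ i ∈ Finset.range r, c i) ≤ law (jump nb lam) (goodJ_jump nb lam) A0
      {ω | ∃ κ : ℕ → ℕ, (∀ i, i < r → κ i ≤ κ (i + 1)) ∧ ∀ i, i ≤ r → (ω (κ i)).1 ∈ S i} := by
  obtain ⟨δ0, hδ0, h⟩ := common_delta (fun i δ => ∀ A ∈ S i, ∃ u : Finset V → ℝ≥0∞,
    (∀ B, u B ≤ 1) ∧
    (∀ B, B ∉ S (i + 1) → (jump nb lam B Set.univ + ENNReal.ofReal δ) * u B ≤
      ∫⁻ z, u z ∂(jump nb lam B)) ∧ ENNReal.ofReal (c i) ≤ u A) (Finset.range r)
    (fun i hi => hst i (Finset.mem_range.1 hi))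
  rw [ENNReal.ofReal_prod_of_nonneg (fun i _ => hc0 i)]
  refine hC (Finset V) (jump nb lam) (goodJ_jump nb lam) A0 r S (fun i => ENNReal.ofReal (c i)) δ0
    hδ0 (fun i => ?_) hT h0 (fun i hi x hx => ?_)
  · exact ENNReal.ofReal_le_one.2 (hc1 i)
  · exact h δ0 hδ0 le_rfl i (Finset.mem_range.2 hi) x hx

end General

section Raw

variable {m k l : ℕ → ℕ}

/-- Stage from finitely many regions of the raw graph. -/
lemma stage_raw (hTR : St_TR) (hSub : St_SUB) (nb' : VV m k l → Finset (VV m k l))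
    (hmap : ∀ v, (nb' v).map (em m k l) = nbx m k l v.1) (lam : ℝ) (hl : 0 ≤ lam)
    (s : Finset ℕ) (R : ℕ → Finset Vx) (T : ℕ → Finset Vx → Prop)
    (hmono : ∀ x, ∀ A B, A ⊆ B → T x A → T x B) (hTR' : ∀ x, ∀ A, T x A → T x (A ∩ R x))
    (hT0 : ∀ x, ¬ T x ∅) (u : ℕ → Finset Vx → ℝ)
    (hu : ∀ x ∈ s, IsHit (rest (nbx m k l) (R x)) lam (R x) (T x) (u x))
    (S S' : Set (Finset (VV m k l))) (c ε : ℝ) (hε : 0 < ε)
    (hS : ∀ A ∈ S, ∃ x ∈ s, c + ε ≤ u x ((A.map (em m k l)) ∩ R x))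
    (hS' : ∀ x ∈ s, ∀ B : Finset (VV m k l), T x (B.map (em m k l)) → B ∈ S') :
    Stage nb' lam S S' c := by
  obtain ⟨δ0, hδ0, h⟩ := common_delta (fun x δ => ∃ w : Finset Vx → ℝ, (∀ A, 0 ≤ w A ∧ w A ≤ 1) ∧
      (∀ A, ¬ T x A → δ * w A ≤ gen (nbx m k l) lam w A) ∧ (∀ A, u x (A ∩ R x) - ε ≤ w A)) s
    (fun x hx => hTR Vx (nbx m k l) lam hl (R x) (T x) (hmono x) (hTR' x) (hT0 x) (u x) (hu x hx)
      ε hε)
  refine ⟨δ0, hδ0, fun δ hδ hδ' A hA => ?_⟩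
  obtain ⟨x, hx, hxc⟩ := hS A hA
  obtain ⟨w, hw1, hw2, hw3⟩ := h δ hδ hδ' x hx
  refine ⟨fun B => ENNReal.ofReal (w (B.map (em m k l))), fun B => ?_, fun B hB => ?_, ?_⟩
  · exact ENNReal.ofReal_le_one.2 (hw1 _).2
  · have hTB : ¬ T x (B.map (em m k l)) := fun hT => hB (hS' x hx B hT)
    have hg := hw2 _ hTB
    by_cases hBe : B = ∅
    · subst hBe
      have h0 : w ∅ = 0 := by
        have h1 := hw2 ∅ (hT0 x)
        have h2 : gen (nbx m k l) lam w ∅ = 0 := by simp [gen]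
        rw [h2] at h1
        have h3 := (hw1 ∅).1
        have h4 : w ∅ ≤ 0 := by
          by_contra h5
          push Not at h5
          have := mul_pos hδ h5
          linarith
        exact le_antisymm h4 h3
      simp [h0]
    · rw [lintegral_jump nb' lam B hBe, jump_univ nb' lam B hBe]
      have e1 := (hSub Vx (okv m k l) (nbx m k l) nb' hmap lam).1
        (fun B => ENNReal.ofReal (w B)) B
      have e2 := (hSub Vx (okv m k l) (nbx m k l) nb' hmap lam).2 B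
      rw [e2]
      refine le_trans (le_up_of_gen (nbx m k l) lam hl w (fun A => (hw1 A).1) _ δ hδ.le hg) ?_
      exact le_of_eq e1.symm
  · refine ENNReal.ofReal_le_ofReal ?_
    have := hw3 (A.map (em m k l))
    linarith

/-- Some hub of level `n` is ignited. -/
def EE' (m k l : ℕ → ℕ) (n : ℕ) : Set (Finset (VV m k l)) :=
  {A | ∃ x, 4 ≤ ((A.map (em m k l)) ∩ cl m n x).card}

lemma label_lt {n x : ℕ} {A : Finset (VV m k l)}
    (h : ((A.map (em m k l)) ∩ cl m n x).Nonempty) : x < 2 ^ lab k n := by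
  obtain ⟨v, hv⟩ := h
  rw [Finset.mem_inter] at hv
  obtain ⟨i, hi, rfl⟩ := Finset.mem_image.1 hv.2
  obtain ⟨a, ha, hav⟩ := Finset.mem_map.1 hv.1
  have h1 := a.2
  have h2 : a.1 = Vx.h n x i := hav
  rw [h2] at h1
  exact h1.2

lemma tgt_mono (J : Finset (ℕ × ℕ)) (A B : Finset Vx) (h : A ⊆ B) (hT : Tgt m J A) :
    Tgt m J B := by
  obtain ⟨j, hj, hc⟩ := hT
  exact ⟨j, hj, hc.trans (Finset.card_le_card (Finset.inter_subset_inter_right h))⟩

lemma tgt_empty (J : Finset (ℕ × ℕ)) : ¬ Tgt m J ∅ := by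
  rintro ⟨j, _, hc⟩
  simp at hc

lemma tgt_region (J : Finset (ℕ × ℕ)) (R : Finset Vx) (hJ : ∀ j ∈ J, cl m j.1 j.2 ⊆ R)
    (A : Finset Vx) (hT : Tgt m J A) : Tgt m J (A ∩ R) := by
  obtain ⟨j, hj, hc⟩ := hT
  refine ⟨j, hj, hc.trans (Finset.card_le_card ?_)⟩
  intro v hv
  rw [Finset.mem_inter] at hv ⊢
  exact ⟨Finset.mem_inter.2 ⟨hv.1, hJ j hj hv.2⟩, hv.2⟩

lemma card_region (n x : ℕ) (R A : Finset Vx) (h : cl m n x ⊆ R) :
    (A ∩ R) ∩ cl m n x = A ∩ cl m n x := by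
  rw [Finset.inter_assoc, Finset.inter_eq_right.2 h]

lemma rest_closed (nb : Vx → Finset Vx) (R : Finset Vx) : ∀ x ∈ R, rest nb R x ⊆ R :=
  fun _ _ => Finset.inter_subset_right

lemma jout_sub (n x : ℕ) : ∀ j ∈ Jout k n x, cl m j.1 j.2 ⊆ cl m n x ∪ Wout m k l n x := by
  intro j hj
  obtain ⟨y, hy, rfl⟩ := Finset.mem_image.1 hj
  refine Finset.subset_union_right.trans' ?_
  unfold Wout
  refine Finset.subset_union_right.trans' ?_
  exact Finset.subset_biUnion_of_mem (fun y => cl m (n + 1) y) hy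

lemma jup_sub (n y : ℕ) : ∀ j ∈ Jup k n y, cl m j.1 j.2 ⊆ cl m (n + 1) y ∪ Wup m k l n y := by
  intro j hj
  obtain rfl := Finset.mem_singleton.1 hj
  refine Finset.subset_union_right.trans' ?_
  unfold Wup
  exact Finset.subset_union_right

lemma stage_out (hTR : St_TR) (hSub : St_SUB) (hRH : St_REGHIT) (hOut : St_OUT)
    (nb' : VV m k l → Finset (VV m k l))
    (hmap : ∀ v, (nb' v).map (em m k l) = nbx m k l v.1)
    (hm : ∀ n, 200 ≤ m n) (hk : ∀ n, 1 ≤ k n) (hl : ∀ n, 1 ≤ l n)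
    (lam : ℝ) (h1 : 1 / 20 ≤ lam) (h2 : lam ≤ 1 / 16) (n : ℕ)
    (hf : 2 * (20 * (m n : ℝ) * (10584 * 11 ^ k n) / (lam ^ 2 * oo (l n) lam * TT lam (m n)) +
        (m n : ℝ) * del lam (m n) 5 / TT lam (m n)) ≤ 1 / ((n : ℝ) + 2) ^ 2) :
    Stage nb' lam (EE' m k l n) (EE' m k l (n + 1)) (1 - 2 / ((n : ℝ) + 2) ^ 2) := by
  have hex : ∀ x, ∃ u, IsHit (rest (nbx m k l) (cl m n x ∪ Wout m k l n x)) lam
      (cl m n x ∪ Wout m k l n x) (Tgt m (Jout k n x)) u := fun x => by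
    obtain ⟨u, hu, _⟩ := hRH Vx (rest (nbx m k l) (cl m n x ∪ Wout m k l n x)) lam (by linarith)
      (cl m n x ∪ Wout m k l n x) (rest_closed _ _) (Tgt m (Jout k n x))
      (tgt_mono _) (tgt_empty _)
    exact ⟨u, hu⟩
  choose u hu using hex
  refine stage_raw hTR hSub nb' hmap lam (by linarith) (Finset.range (2 ^ lab k n))
    (fun x => cl m n x ∪ Wout m k l n x) (fun x => Tgt m (Jout k n x))
    (fun x => tgt_mono _) (fun x => tgt_region _ _ (jout_sub n x)) (fun x => tgt_empty _) u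
    (fun x _ => hu x) _ _ _ (1 / ((n : ℝ) + 2) ^ 2) (by positivity) ?_ ?_
  · rintro A ⟨x, hx⟩
    have hne : ((A.map (em m k l)) ∩ cl m n x).Nonempty := Finset.card_pos.1 (by omega)
    refine ⟨x, Finset.mem_range.2 (label_lt hne), ?_⟩
    have h3 := hOut m k l hm hk hl lam h1 h2 n x (u x) (hu x)
      ((A.map (em m k l)) ∩ (cl m n x ∪ Wout m k l n x)) Finset.inter_subset_right
      (by rw [card_region _ _ _ _ Finset.subset_union_left]; exact hx)
    have : (2 : ℝ) / ((n : ℝ) + 2) ^ 2 = 1 / ((n : ℝ) + 2) ^ 2 + 1 / ((n : ℝ) + 2) ^ 2 := by ring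
    linarith
  · rintro x _ B ⟨j, hj, hc⟩
    obtain ⟨y, _, rfl⟩ := Finset.mem_image.1 hj
    exact ⟨y, hc⟩

lemma stage_up (hTR : St_TR) (hSub : St_SUB) (hRH : St_REGHIT) (hUp : St_UPW)
    (nb' : VV m k l → Finset (VV m k l))
    (hmap : ∀ v, (nb' v).map (em m k l) = nbx m k l v.1)
    (hm : ∀ n, 200 ≤ m n) (hk : ∀ n, 1 ≤ k n) (hl : ∀ n, 1 ≤ l n)
    (lam : ℝ) (h1 : 1 / 20 ≤ lam) (h2 : lam ≤ 1 / 16) (n : ℕ) (c ε : ℝ) (hε : 0 < ε)
    (hf : c + ε ≤ 1 - 2 * (20 * (m (n + 1) : ℝ) * (24 * 21 ^ (k n + 2)) /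
          (lam ^ 2 * oo (l n) lam * TT lam (m (n + 1))) +
        (m (n + 1) : ℝ) * del lam (m (n + 1)) 5 / TT lam (m (n + 1))) ∨
      c + ε ≤ (1 / 21 : ℝ) ^ 2 * (oo (l n) lam / (24 * 21 ^ (k n + 2)))) :
    Stage nb' lam (EE' m k l (n + 1)) (EE' m k l n) c := by
  have hex : ∀ y, ∃ u, IsHit (rest (nbx m k l) (cl m (n + 1) y ∪ Wup m k l n y)) lam
      (cl m (n + 1) y ∪ Wup m k l n y) (Tgt m (Jup k n y)) u := fun y => by
    obtain ⟨u, hu, _⟩ := hRH Vx (rest (nbx m k l) (cl m (n + 1) y ∪ Wup m k l n y)) lam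
      (by linarith) (cl m (n + 1) y ∪ Wup m k l n y) (rest_closed _ _) (Tgt m (Jup k n y))
      (tgt_mono _) (tgt_empty _)
    exact ⟨u, hu⟩
  choose u hu using hex
  refine stage_raw hTR hSub nb' hmap lam (by linarith) (Finset.range (2 ^ lab k (n + 1)))
    (fun y => cl m (n + 1) y ∪ Wup m k l n y) (fun y => Tgt m (Jup k n y))
    (fun x => tgt_mono _) (fun x => tgt_region _ _ (jup_sub n x)) (fun x => tgt_empty _) u
    (fun x _ => hu x) _ _ _ ε hε ?_ ?_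
  · rintro A ⟨y, hy⟩
    have hne : ((A.map (em m k l)) ∩ cl m (n + 1) y).Nonempty := Finset.card_pos.1 (by omega)
    refine ⟨y, Finset.mem_range.2 (label_lt hne), ?_⟩
    have h3 := hUp m k l hm hk hl lam h1 h2 n y (u y) (hu y)
    rcases hf with hf | hf
    · have h4 := h3.1 ((A.map (em m k l)) ∩ (cl m (n + 1) y ∪ Wup m k l n y))
        Finset.inter_subset_right
        (by rw [card_region _ _ _ _ Finset.subset_union_left]; exact hy)
      linarith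
    · have h4 := h3.2 ((A.map (em m k l)) ∩ (cl m (n + 1) y ∪ Wup m k l n y))
        Finset.inter_subset_right
        (by rw [card_region _ _ _ _ Finset.subset_union_left]; exact hne)
      linarith
  · rintro x _ B ⟨j, hj, hc⟩
    obtain rfl := Finset.mem_singleton.1 hj
    exact ⟨_, hc⟩

lemma stage_start (hTR : St_TR) (hSub : St_SUB) (hRH : St_REGHIT) (hStart : St_START)
    (nb' : VV m k l → Finset (VV m k l))
    (hmap : ∀ v, (nb' v).map (em m k l) = nbx m k l v.1)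
    (hm : ∀ n, 200 ≤ m n) (hk : ∀ n, 1 ≤ k n) (hl : ∀ n, 1 ≤ l n)
    (lam : ℝ) (h1 : 1 / 20 ≤ lam) (h2 : lam ≤ 1 / 16) (o : VV m k l) (ho : o.1 = Vx.h 0 0 1) :
    Stage nb' lam {({o} : Finset (VV m k l))} (EE' m k l 0) (1 / 16) := by
  obtain ⟨u, hu, _⟩ := hRH Vx (rest (nbx m k l) (cl m 0 0)) lam
      (by linarith) (cl m 0 0) (rest_closed _ _) (Tgt m {(0, 0)})
      (tgt_mono _) (tgt_empty _)
  refine stage_raw hTR hSub nb' hmap lam (by linarith) {0}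
    (fun _ => cl m 0 0) (fun _ => Tgt m {(0, 0)})
    (fun x => tgt_mono _) (fun x => tgt_region _ _ (by simp)) (fun x => tgt_empty _) (fun _ => u)
    (fun x _ => hu) _ _ _ (1 / 16) (by norm_num) ?_ ?_
  · rintro A hA
    obtain rfl := Set.mem_singleton_iff.1 hA
    refine ⟨0, by simp, ?_⟩
    have h3 := (hStart m k l hm hk hl lam h1 h2).1 u hu
    have h4 : (({o} : Finset (VV m k l)).map (em m k l)) ∩ cl m 0 0 = {Vx.h 0 0 1} := by
      rw [Finset.map_singleton]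
      have : (em m k l) o = Vx.h 0 0 1 := ho
      rw [this]
      refine Finset.inter_eq_left.2 ?_
      rw [Finset.singleton_subset_iff]
      unfold cl
      exact Finset.mem_image.2 ⟨1, Finset.mem_range.2 (by have := hm 0; omega), rfl⟩
    rw [h4]
    linarith
  · rintro x _ B ⟨j, hj, hc⟩
    obtain rfl := Finset.mem_singleton.1 hj
    exact ⟨_, hc⟩

lemma stage_end (hTR : St_TR) (hSub : St_SUB) (hRH : St_REGHIT) (hStart : St_START)
    (nb' : VV m k l → Finset (VV m k l))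
    (hmap : ∀ v, (nb' v).map (em m k l) = nbx m k l v.1)
    (hm : ∀ n, 200 ≤ m n) (hk : ∀ n, 1 ≤ k n) (hl : ∀ n, 1 ≤ l n)
    (lam : ℝ) (h1 : 1 / 20 ≤ lam) (h2 : lam ≤ 1 / 16) (o : VV m k l) (ho : o.1 = Vx.h 0 0 1) :
    Stage nb' lam (EE' m k l 0) {A | o ∈ A} (1 / 42) := by
  have hocl : Vx.h 0 0 1 ∈ cl m 0 0 := by
    unfold cl
    exact Finset.mem_image.2 ⟨1, Finset.mem_range.2 (by have := hm 0; omega), rfl⟩
  obtain ⟨u, hu, _⟩ := hRH Vx (rest (nbx m k l) (cl m 0 0)) lam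
      (by linarith) (cl m 0 0) (rest_closed _ _) (fun A => Vx.h 0 0 1 ∈ A)
      (fun A B h hA => h hA) (by simp)
  refine stage_raw hTR hSub nb' hmap lam (by linarith) {0}
    (fun _ => cl m 0 0) (fun _ A => Vx.h 0 0 1 ∈ A)
    (fun x A B h hA => h hA) (fun x A hA => Finset.mem_inter.2 ⟨hA, hocl⟩) (fun x => by simp)
    (fun _ => u) (fun x _ => hu) _ _ _ (1 / 42) (by norm_num) ?_ ?_
  · rintro A ⟨x, hx⟩
    have hne : ((A.map (em m k l)) ∩ cl m 0 x).Nonempty := Finset.card_pos.1 (by omega)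
    have hx0 : x = 0 := by
      have := label_lt hne
      simp [lab] at this
      exact this
    subst hx0
    refine ⟨0, by simp, ?_⟩
    have h3 := (hStart m k l hm hk hl lam h1 h2).2 u hu ((A.map (em m k l)) ∩ cl m 0 0)
      Finset.inter_subset_right hne
    linarith
  · rintro x _ B hB
    obtain ⟨b, hb, hbe⟩ := Finset.mem_map.1 hB
    have h3 : b = o := by
      apply Subtype.ext
      rw [ho]; exact hbe
    change o ∈ B
    rw [← h3]; exact hb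

end Raw

end Pool.Agent.W845.CP
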