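import Mathlib
import Pool.Agent.W845.CP.Fin3

set_option autoImplicit false
set_option linter.style.haveILetI false
set_option linter.unusedSectionVars false
open scoped BigOperators ENNReal
open MeasureTheory ProbabilityTheory Filter

/-!
Project CP: final assembly, part 4 (survival statements).
-/

namespace Pool.Agent.W845.CP

/-! ### A product lemma -/

lemma ratio_le (n : ℕ) (hn : 4 ≤ n) :
    (1 + 4 / ((n : ℝ) + 3)) ≤ (1 - 2 / ((n : ℝ) + 2) ^ 2) * (1 + 4 / ((n : ℝ) + 2)) := by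
  have h4 : (4 : ℝ) ≤ n := by exact_mod_cast hn
  set j : ℝ := (n : ℝ) + 2 with hj
  have hj6 : 6 ≤ j := by linarith
  have e1 : (n : ℝ) + 3 = j + 1 := by rw [hj]; ring
  rw [e1]
  have h1 : (1 + 4 / (j + 1)) = (j + 5) / (j + 1) := by field_simp; ring
  have h2 : (1 - 2 / j ^ 2) * (1 + 4 / j) = ((j ^ 2 - 2) * (j + 4)) / j ^ 3 := by
    field_simp
  rw [h1, h2, div_le_div_iff₀ (by linarith) (by positivity)]
  nlinarith [mul_nonneg (by linarith : (0 : ℝ) ≤ j - 6) (by linarith : (0 : ℝ) ≤ j)]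

lemma prod_lower (c : ℕ → ℝ) (h0 : ∀ n, 0 < c n) (h1 : ∀ n, c n ≤ 1) (N0 : ℕ)
    (h2 : ∀ n, N0 ≤ n → 1 - 2 / ((n : ℝ) + 2) ^ 2 ≤ c n) :
    ∃ C : ℝ, 0 < C ∧ C ≤ 1 ∧ ∀ N, C ≤ ∏ n ∈ Finset.range N, c n := by
  set M := max N0 4 with hM
  have hPM : 0 < ∏ n ∈ Finset.range M, c n := Finset.prod_pos fun n _ => h0 n
  have hPM1 : ∏ n ∈ Finset.range M, c n ≤ 1 := Finset.prod_le_one (fun n _ => (h0 n).le) fun n _ => h1 n
  have haM : 0 < 1 + 4 / ((M : ℝ) + 2) := by positivity
  have haM1 : 1 ≤ 1 + 4 / ((M : ℝ) + 2) := by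
    have : 0 ≤ 4 / ((M : ℝ) + 2) := by positivity
    linarith
  have key : ∀ N, M ≤ N → (∏ n ∈ Finset.range M, c n) * (1 + 4 / ((N : ℝ) + 2)) ≤
      (∏ n ∈ Finset.range N, c n) * (1 + 4 / ((M : ℝ) + 2)) := by
    intro N hN
    induction N, hN using Nat.le_induction with
    | base => exact le_rfl
    | succ N hN ih =>
      rw [Finset.prod_range_succ]
      have hN4 : 4 ≤ N := (le_max_right _ _).trans hN
      have hN0 : N0 ≤ N := (le_max_left _ _).trans hN
      have e1 : ((N + 1 : ℕ) : ℝ) + 2 = (N : ℝ) + 3 := by push_cast; ring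
      rw [e1]
      have hr := ratio_le N hN4
      have hc := h2 N hN0
      have hpos : (0 : ℝ) < 1 + 4 / ((N : ℝ) + 2) := by positivity
      calc (∏ n ∈ Finset.range M, c n) * (1 + 4 / ((N : ℝ) + 3))
          ≤ (∏ n ∈ Finset.range M, c n) * ((1 - 2 / ((N : ℝ) + 2) ^ 2) * (1 + 4 / ((N : ℝ) + 2))) :=
            mul_le_mul_of_nonneg_left hr hPM.le
        _ ≤ (∏ n ∈ Finset.range M, c n) * (c N * (1 + 4 / ((N : ℝ) + 2))) := by
            refine mul_le_mul_of_nonneg_left ?_ hPM.le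
            exact mul_le_mul_of_nonneg_right hc hpos.le
        _ = ((∏ n ∈ Finset.range M, c n) * (1 + 4 / ((N : ℝ) + 2))) * c N := by ring
        _ ≤ ((∏ n ∈ Finset.range N, c n) * (1 + 4 / ((M : ℝ) + 2))) * c N :=
            mul_le_mul_of_nonneg_right ih (h0 N).le
        _ = _ := by ring
  refine ⟨(∏ n ∈ Finset.range M, c n) / (1 + 4 / ((M : ℝ) + 2)), by positivity, ?_, fun N => ?_⟩
  · rw [div_le_one haM]; linarith
  · rw [div_le_iff₀ haM]
    rcases le_total M N with h | h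
    · have h3 := key N h
      have h4 : (0 : ℝ) ≤ 4 / ((N : ℝ) + 2) := by positivity
      nlinarith
    · have h3 : ∏ n ∈ Finset.range M, c n ≤ ∏ n ∈ Finset.range N, c n := by
        have := Finset.prod_range_mul_prod_Ico c h
        rw [← this]
        refine mul_le_of_le_one_right (Finset.prod_nonneg fun n _ => (h0 n).le) ?_
        exact Finset.prod_le_one (fun n _ => (h0 n).le) fun n _ => h1 n
      have h4 : 0 ≤ ∏ n ∈ Finset.range N, c n := Finset.prod_nonneg fun n _ => (h0 n).le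
      nlinarith

/-! ### Levels -/

def lev : Vx → ℕ
  | .h n _ _ => n
  | .t n _ _ => n
  | .p n _ _ => n

lemma lev_nbx (m k l : ℕ → ℕ) (v w : Vx) (h : w ∈ nbx m k l v) : lev w ≤ lev v + 1 := by
  cases v with
  | h n y i =>
    simp only [nbx] at h
    split_ifs at h with h1 h2
    · rw [Finset.mem_union] at h
      rcases h with h | h
      · obtain ⟨j, _, rfl⟩ := Finset.mem_image.1 h
        simp [lev]
      · rcases Finset.mem_insert.1 h with rfl | h
        · simp [lev]
        · cases n with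
          | zero => simp [upv] at h
          | succ n =>
            simp only [upv, Finset.mem_singleton] at h
            subst h
            simp [lev]; omega
    · rw [Finset.union_empty] at h
      obtain ⟨j, _, rfl⟩ := Finset.mem_image.1 h
      simp [lev]
    · simp at h
  | t n i y =>
    simp only [nbx] at h
    split_ifs at h <;> simp at h <;> (try rcases h with rfl | rfl | rfl) <;>
      (try rcases h with rfl | rfl) <;> simp [lev]
  | p n j y =>
    simp only [nbx] at h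
    split_ifs at h <;> simp at h <;> rcases h with rfl | rfl <;> simp [lev]

section

variable {m k l : ℕ → ℕ}

lemma level_ae (hS : St_STEP) (nb' : VV m k l → Finset (VV m k l))
    (hmap : ∀ v, (nb' v).map (em m k l) = nbx m k l v.1) (lam : ℝ) (A0 : Finset (VV m k l))
    (h0 : ∀ v ∈ A0, lev v.1 = 0) :
    ∀ᵐ ω ∂(law (jump nb' lam) (goodJ_jump nb' lam) A0), ∀ j, ∀ v ∈ (ω j).1, lev v.1 ≤ j := by
  have h := hS (Finset (VV m k l)) (jump nb' lam) (goodJ_jump nb' lam) A0
    (fun A B => ∀ b, (∀ v ∈ A, lev v.1 ≤ b) → ∀ v ∈ B, lev v.1 ≤ b + 1)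
    (fun A => jump_ae nb' lam A _ (fun _ b _ v hv => by simp at hv)
      (fun x _ b hb v hv => (hb v (Finset.mem_of_mem_erase hv)).trans (Nat.le_succ b))
      (fun x hx y hy _ b hb v hv => by
        rcases Finset.mem_insert.1 hv with rfl | hv
        · have h1 : v.1 ∈ nbx m k l x.1 := by
            rw [← hmap x]
            exact Finset.mem_map_of_mem (em m k l) hy
          have h2 := lev_nbx m k l _ _ h1
          have h3 := hb x hx
          omega
        · exact (hb v hv).trans (Nat.le_succ b)))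
  filter_upwards [h] with ω hω j
  induction j with
  | zero =>
    intro v hv
    rw [hω.1] at hv
    exact (h0 v hv).le
  | succ j ih => exact (hω.2 j).1 j ih

/-- Survival of the jump chain gives global survival. -/
lemma glob_of_chain (hS : St_STEP) (nb' : VV m k l → Finset (VV m k l))
    (hmap : ∀ v, (nb' v).map (em m k l) = nbx m k l v.1) (lam : ℝ) (A0 : Finset (VV m k l))
    (h0 : ∀ v ∈ A0, lev v.1 = 0)
    (hT : ∀ᵐ ω ∂(law (jump nb' lam) (goodJ_jump nb' lam) A0),
      Tendsto (fun k => (ω k).2) atTop atTop)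
    (C : ℝ) (hC : 0 < C)
    (h : ∀ N, ENNReal.ofReal C ≤ law (jump nb' lam) (goodJ_jump nb' lam) A0
      {ω | ∃ κ, (ω κ).1 ∈ EE' m k l N}) :
    0 < law (jump nb' lam) (goodJ_jump nb' lam) A0
      {ω | ∀ t : ℝ, 0 ≤ t → (infected ω t).Nonempty} := by
  set μ := law (jump nb' lam) (goodJ_jump nb' lam) A0 with hμ
  have hb := basic_ae hS nb' lam A0
  have hlev := level_ae hS nb' hmap lam A0 h0
  let B : ℕ → Set (ℕ → Finset (VV m k l) × ℝ) := fun N => {ω | ∀ j, j ≤ N → (ω j).1 ≠ ∅}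
  have hBm : ∀ N, MeasurableSet (B N) := by
    intro N
    have : B N = ⋂ j, ⋂ (_ : j ≤ N), (fun ω : ℕ → Finset (VV m k l) × ℝ => (ω j).1) ⁻¹' {∅}ᶜ := by
      ext ω; simp [B]
    rw [this]
    refine MeasurableSet.iInter fun j => MeasurableSet.iInter fun _ => ?_
    exact (measurable_fst.comp (measurable_pi_apply j)) (DiscreteMeasurableSpace.forall_measurableSet _)
  have hBa : Antitone B := fun N N' hN ω hω j hj => hω j (hj.trans hN)
  have hBge : ∀ N, ENNReal.ofReal C ≤ μ (B N) := by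
    intro N
    refine (h N).trans (measure_mono_ae ?_)
    filter_upwards [hb, hlev] with ω h1 h2 hκ
    obtain ⟨κ, x, hx⟩ := hκ
    have hne : (((ω κ).1.map (em m k l)) ∩ cl m N x).Nonempty := Finset.card_pos.1 (by omega)
    obtain ⟨v, hv⟩ := hne
    rw [Finset.mem_inter] at hv
    obtain ⟨i, _, rfl⟩ := Finset.mem_image.1 hv.2
    obtain ⟨a, ha, hav⟩ := Finset.mem_map.1 hv.1
    have h3 : lev a.1 ≤ κ := h2 κ a ha
    have h4 : a.1 = Vx.h N x i := hav
    rw [h4] at h3
    have h5 : N ≤ κ := h3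
    intro j hj hje
    have := empty_absorb h1.2.2 hje κ (hj.trans h5)
    rw [this] at ha
    simp at ha
  have hinter : ENNReal.ofReal C ≤ μ (⋂ N, B N) := by
    rw [hBa.measure_iInter (fun N => (hBm N).nullMeasurableSet) ⟨0, measure_ne_top _ _⟩]
    exact le_iInf hBge
  refine lt_of_lt_of_le (ENNReal.ofReal_pos.2 hC) (hinter.trans (measure_mono_ae ?_))
  filter_upwards [hb, hT] with ω h1 h2 hω t ht
  have hω' : ∀ j, (ω j).1 ≠ ∅ := fun j => (Set.mem_iInter.1 hω j) j le_rfl
  have hex : ∃ j, t < (ω (j + 1)).2 := by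
    obtain ⟨j, hj⟩ := (h2.eventually_gt_atTop t).exists_forall_of_atTop
    exact ⟨j, hj (j + 1) (Nat.le_succ j)⟩
  classical
  have hj1 := Nat.find_spec hex
  set j := Nat.find hex with hjdef
  have hj2 : (ω j).2 ≤ t := by
    by_cases hj0 : j = 0
    · rw [hj0, h1.1]; exact ht
    · by_contra hcon
      push Not at hcon
      have := Nat.find_min hex (m := j - 1) (by omega)
      apply this
      rw [Nat.sub_add_cancel (by omega)]
      exact hcon
  obtain ⟨v, hv⟩ := Finset.nonempty_iff_ne_empty.2 (hω' j)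
  exact ⟨v, j, hj2, hj1, hv⟩

/-- Returns to `o` at arbitrarily large steps give local survival. -/
lemma loc_of_chain (hS : St_STEP) (nb' : VV m k l → Finset (VV m k l))
    (lam : ℝ) (A0 : Finset (VV m k l)) (o : VV m k l)
    (hT : ∀ᵐ ω ∂(law (jump nb' lam) (goodJ_jump nb' lam) A0),
      Tendsto (fun k => (ω k).2) atTop atTop)
    (C : ℝ) (hC : 0 < C)
    (h : ∀ N, ENNReal.ofReal C ≤ law (jump nb' lam) (goodJ_jump nb' lam) A0
      {ω | ∃ κ, N ≤ κ ∧ o ∈ (ω κ).1}) :
    0 < law (jump nb' lam) (goodJ_jump nb' lam) A0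
      {ω | ∀ t : ℝ, ∃ s, t ≤ s ∧ o ∈ infected ω s} := by
  set μ := law (jump nb' lam) (goodJ_jump nb' lam) A0 with hμ
  have hb := basic_ae hS nb' lam A0
  let B : ℕ → Set (ℕ → Finset (VV m k l) × ℝ) := fun N => {ω | ∃ κ, N ≤ κ ∧ o ∈ (ω κ).1}
  have hBm : ∀ N, MeasurableSet (B N) := by
    intro N
    have : B N = ⋃ j, ⋃ (_ : N ≤ j), (fun ω : ℕ → Finset (VV m k l) × ℝ => (ω j).1) ⁻¹'
        {A | o ∈ A} := by
      ext ω; simp [B]
    rw [this]
    refine MeasurableSet.iUnion fun j => MeasurableSet.iUnion fun _ => ?_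
    exact (measurable_fst.comp (measurable_pi_apply j)) (DiscreteMeasurableSpace.forall_measurableSet _)
  have hBa : Antitone B := fun N N' hN ω hω => by
    obtain ⟨κ, h1, h2⟩ := hω
    exact ⟨κ, hN.trans h1, h2⟩
  have hinter : ENNReal.ofReal C ≤ μ (⋂ N, B N) := by
    rw [hBa.measure_iInter (fun N => (hBm N).nullMeasurableSet) ⟨0, measure_ne_top _ _⟩]
    exact le_iInf h
  refine lt_of_lt_of_le (ENNReal.ofReal_pos.2 hC) (hinter.trans (measure_mono_ae ?_))
  filter_upwards [hb, hT] with ω h1 h2 hω t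
  obtain ⟨j, hj⟩ := (h2.eventually_gt_atTop t).exists_forall_of_atTop
  obtain ⟨κ, hκ, hoκ⟩ := Set.mem_iInter.1 hω j
  refine ⟨(ω κ).2, (hj κ hκ).le, ?_⟩
  rw [infected_at h1.2.1]
  exact hoκ

end

end Pool.Agent.W845.CP
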