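import Mathlib
import Pool.Agent.W845.CP.Fin4

set_option autoImplicit false
set_option linter.style.haveILetI false
set_option linter.unusedSectionVars false
open scoped BigOperators ENNReal
open MeasureTheory ProbabilityTheory Filter

/-!
Project CP: final assembly, part 5 (the chains of stages; upper bounds).
-/

namespace Pool.Agent.W845.CP

/-- The parameters chosen in `St_TUNE`. -/
structure Good (m k l : ℕ → ℕ) : Prop where
  base : ∀ n, 200 ≤ m n ∧ m n ≤ m (n + 1) ∧ m (n + 1) ≤ 2 * m n ∧ 1 ≤ k n ∧ 1 ≤ l n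
  t1 : ∀ n, Ts (1 / 20) (m n) * Ts (1 / 20) (m (n + 1)) * oo (l n) (1 / 20) ^ 2 *
      (2 * (1 / 19 : ℝ) ^ 2) ^ k n ≤ 1
  t2 : ∀ n, Ts (1 / 20) (m (n + 1)) * oo (l n) (1 / 20) ^ 2 ≤ 1
  t3 : ∀ lam : ℝ, 0 < lam → lam < 1 / 20 → ∃ N, ∀ n, N ≤ n →
      Ts lam (m (n + 1)) * oo (l n) lam ≤ 1 ∧ Ts lam (m n) * oo (l n) lam ≤ 1
  t4 : ∀ lam : ℝ, 1 / 20 ≤ lam → lam ≤ 1 / 16 → ∀ n,
      2 * (20 * (m n : ℝ) * (10584 * 11 ^ k n) / (lam ^ 2 * oo (l n) lam * TT lam (m n)) +
        (m n : ℝ) * del lam (m n) 5 / TT lam (m n)) ≤ 1 / ((n : ℝ) + 2) ^ 2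
  t5 : ∀ lam : ℝ, 1 / 20 < lam → lam ≤ 1 / 16 → ∃ N, ∀ n, N ≤ n →
      2 * (20 * (m (n + 1) : ℝ) * (24 * 21 ^ (k n + 2)) /
          (lam ^ 2 * oo (l n) lam * TT lam (m (n + 1))) +
        (m (n + 1) : ℝ) * del lam (m (n + 1)) 5 / TT lam (m (n + 1))) ≤ 1 / ((n : ℝ) + 2) ^ 2

/-- All parts. -/
structure Parts : Prop where
  step : St_STEP
  occ1 : St_OCC1
  occ2 : St_OCC2
  ne : St_NE
  chain : St_CHAIN
  reghit : St_REGHIT
  tr : St_TR
  path : St_PATH
  seq : St_SEQ
  ups : St_UPS
  out : St_OUT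
  upw : St_UPW
  start : St_START
  nex : St_NEX
  graph : St_GRAPH
  sub : St_SUB

section

variable {m k l : ℕ → ℕ}

lemma chain_out (P : Parts) (hG : Good m k l) (nb' : VV m k l → Finset (VV m k l))
    (hmap : ∀ v, (nb' v).map (em m k l) = nbx m k l v.1)
    (lam : ℝ) (h1 : 1 / 20 ≤ lam) (h2 : lam ≤ 1 / 16) (o : VV m k l) (ho : o.1 = Vx.h 0 0 1)
    (hT : ∀ᵐ ω ∂(law (jump nb' lam) (goodJ_jump nb' lam) {o}),
      Tendsto (fun k => (ω k).2) atTop atTop) :
    ∃ C : ℝ, 0 < C ∧ ∀ N, ENNReal.ofReal C ≤ law (jump nb' lam) (goodJ_jump nb' lam) {o}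
      {ω | ∃ κ, (ω κ).1 ∈ EE' m k l N} := by
  have hpos : ∀ n : ℕ, (0 : ℝ) < 1 - 2 / ((n : ℝ) + 2) ^ 2 := by
    intro n
    have h3 : (0 : ℝ) ≤ n := Nat.cast_nonneg n
    rw [sub_pos, div_lt_one (by positivity)]
    nlinarith
  have hle : ∀ n : ℕ, (1 : ℝ) - 2 / ((n : ℝ) + 2) ^ 2 ≤ 1 := by
    intro n
    have : (0 : ℝ) ≤ 2 / ((n : ℝ) + 2) ^ 2 := by positivity
    linarith
  obtain ⟨C, hC, _, hCp⟩ := prod_lower (fun n => 1 - 2 / ((n : ℝ) + 2) ^ 2) hpos hle 0
    (fun n _ => le_rfl)
  refine ⟨1 / 16 * C, by positivity, fun N => ?_⟩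
  have h3 := chainG P.chain nb' lam {o} hT (N + 1)
    (fun i => if i = 0 then {({o} : Finset (VV m k l))} else EE' m k l (i - 1))
    (fun i => if i = 0 then 1 / 16 else 1 - 2 / (((i - 1 : ℕ) : ℝ) + 2) ^ 2)
    (fun i => by
      split_ifs
      · norm_num
      · exact (hpos _).le)
    (fun i => by
      split_ifs
      · norm_num
      · exact hle _)
    (by simp)
    (fun i _ => by
      rcases Nat.eq_zero_or_pos i with rfl | hi
      · simpa using stage_start P.tr P.sub P.reghit P.start nb' hmap (fun n => (hG.base n).1)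
          (fun n => (hG.base n).2.2.2.1) (fun n => (hG.base n).2.2.2.2) lam h1 h2 o ho
      · obtain ⟨j, rfl⟩ : ∃ j, i = j + 1 := ⟨i - 1, by omega⟩
        simpa using stage_out P.tr P.sub P.reghit P.out nb' hmap (fun n => (hG.base n).1)
          (fun n => (hG.base n).2.2.2.1) (fun n => (hG.base n).2.2.2.2) lam h1 h2 j
          (hG.t4 lam h1 h2 j))
  refine le_trans (ENNReal.ofReal_le_ofReal ?_) (h3.trans (measure_mono ?_))
  · rw [Finset.prod_range_succ']
    simp only [Nat.add_eq_zero_iff, one_ne_zero, and_false, if_false, Nat.add_sub_cancel, if_true]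
    rw [mul_comm]
    exact mul_le_mul_of_nonneg_right (hCp N) (by norm_num)
  · rintro ω ⟨κ, _, hκ⟩
    have := hκ (N + 1) le_rfl
    simp only [Nat.add_eq_zero_iff, one_ne_zero, and_false, if_false, Nat.add_sub_cancel] at this
    exact ⟨_, this⟩

lemma chain_loc (P : Parts) (hG : Good m k l) (nb' : VV m k l → Finset (VV m k l))
    (hmap : ∀ v, (nb' v).map (em m k l) = nbx m k l v.1)
    (lam : ℝ) (h1 : 1 / 20 < lam) (h2 : lam ≤ 1 / 16) (o : VV m k l) (ho : o.1 = Vx.h 0 0 1)
    (hT : ∀ᵐ ω ∂(law (jump nb' lam) (goodJ_jump nb' lam) {o}),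
      Tendsto (fun k => (ω k).2) atTop atTop) :
    ∃ C : ℝ, 0 < C ∧ ∀ N, ENNReal.ofReal C ≤ law (jump nb' lam) (goodJ_jump nb' lam) {o}
      {ω | ∃ κ, N ≤ κ ∧ o ∈ (ω κ).1} := by
  have hpos : ∀ n : ℕ, (0 : ℝ) < 1 - 2 / ((n : ℝ) + 2) ^ 2 := by
    intro n
    have h3 : (0 : ℝ) ≤ n := Nat.cast_nonneg n
    rw [sub_pos, div_lt_one (by positivity)]
    nlinarith
  have hle : ∀ n : ℕ, (1 : ℝ) - 2 / ((n : ℝ) + 2) ^ 2 ≤ 1 := by
    intro n
    have : (0 : ℝ) ≤ 2 / ((n : ℝ) + 2) ^ 2 := by positivity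
    linarith
  obtain ⟨N0, hN0⟩ := hG.t5 lam h1 h2
  -- constants for the way up
  set q : ℕ → ℝ := fun n => (1 / 21 : ℝ) ^ 2 * (oo (l n) lam / (24 * 21 ^ (k n + 2))) with hq
  have hqpos : ∀ n, 0 < q n := fun n => by
    have h3 := (P.path lam (by linarith) h2 (l n) (hG.base n).2.2.2.2).2.2.2.1
    have h4 : (0 : ℝ) < (1 / 21 : ℝ) ^ 2 := by norm_num
    have h5 : (0 : ℝ) < (24 * 21 ^ (k n + 2) : ℝ) := by positivity
    exact mul_pos h4 (div_pos h3 h5)
  set cu : ℕ → ℝ := fun n => if N0 ≤ n then 1 - 2 / ((n : ℝ) + 2) ^ 2 else min (q n / 2) 1 with hcu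
  have hcupos : ∀ n, 0 < cu n := fun n => by
    simp only [hcu]
    split_ifs
    · exact hpos n
    · exact lt_min (by have := hqpos n; linarith) one_pos
  have hcule : ∀ n, cu n ≤ 1 := fun n => by
    simp only [hcu]
    split_ifs
    · exact hle n
    · exact min_le_right _ _
  obtain ⟨C, hC, _, hCp⟩ := prod_lower (fun n => 1 - 2 / ((n : ℝ) + 2) ^ 2) hpos hle 0
    (fun n _ => le_rfl)
  obtain ⟨C', hC', _, hCp'⟩ := prod_lower cu hcupos hcule N0
    (fun n hn => by simp only [hcu, if_pos hn]; exact le_rfl)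
  have hup : ∀ n, Stage nb' lam (EE' m k l (n + 1)) (EE' m k l n) (cu n) := by
    intro n
    by_cases hn : N0 ≤ n
    · have h3 := hN0 n hn
      refine stage_up P.tr P.sub P.reghit P.upw nb' hmap (fun n => (hG.base n).1)
        (fun n => (hG.base n).2.2.2.1) (fun n => (hG.base n).2.2.2.2) lam h1.le h2 n _
        (1 / ((n : ℝ) + 2) ^ 2) (by positivity) (Or.inl ?_)
      simp only [hcu, if_pos hn]
      have : (2 : ℝ) / ((n : ℝ) + 2) ^ 2 = 1 / ((n : ℝ) + 2) ^ 2 + 1 / ((n : ℝ) + 2) ^ 2 := by ring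
      linarith
    · refine stage_up P.tr P.sub P.reghit P.upw nb' hmap (fun n => (hG.base n).1)
        (fun n => (hG.base n).2.2.2.1) (fun n => (hG.base n).2.2.2.2) lam h1.le h2 n _
        (q n / 2) (by have := hqpos n; linarith) (Or.inr ?_)
      simp only [hcu, if_neg hn]
      have h4 : min (q n / 2) 1 ≤ q n / 2 := min_le_left _ _
      have h5 : q n = (1 / 21 : ℝ) ^ 2 * (oo (l n) lam / (24 * 21 ^ (k n + 2))) := rfl
      linarith
  refine ⟨1 / 16 * (C * C') * (1 / 42), by positivity, fun N => ?_⟩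
  set S : ℕ → Set (Finset (VV m k l)) := fun i => if i = 0 then {({o} : Finset (VV m k l))}
    else if i ≤ N + 1 then EE' m k l (i - 1) else if i ≤ 2 * N + 1 then EE' m k l (2 * N + 1 - i)
    else {A | o ∈ A} with hS
  set c : ℕ → ℝ := fun i => if i = 0 then 1 / 16
    else if i ≤ N then 1 - 2 / (((i - 1 : ℕ) : ℝ) + 2) ^ 2 else if i ≤ 2 * N then cu (2 * N - i)
    else 1 / 42 with hc
  have h3 := chainG P.chain nb' lam {o} hT (2 * N + 2) S c
    (fun i => by
      simp only [hc]
      split_ifs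
      · norm_num
      · exact (hpos _).le
      · exact (hcupos _).le
      · norm_num)
    (fun i => by
      simp only [hc]
      split_ifs
      · norm_num
      · exact hle _
      · exact hcule _
      · norm_num)
    (by simp [hS])
    (fun i hi => by
      rcases Nat.eq_zero_or_pos i with rfl | hi0
      · simpa [hS, hc] using stage_start P.tr P.sub P.reghit P.start nb' hmap
          (fun n => (hG.base n).1)
          (fun n => (hG.base n).2.2.2.1) (fun n => (hG.base n).2.2.2.2) lam h1.le h2 o ho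
      · by_cases hiN : i ≤ N
        · have e1 : S i = EE' m k l (i - 1) := by
            simp only [hS]; rw [if_neg (by omega), if_pos (by omega)]
          have e2 : S (i + 1) = EE' m k l (i - 1 + 1) := by
            simp only [hS]; rw [if_neg (by omega), if_pos (by omega)]
            congr 1; omega
          have e3 : c i = 1 - 2 / (((i - 1 : ℕ) : ℝ) + 2) ^ 2 := by
            simp only [hc]; rw [if_neg (by omega), if_pos hiN]
          rw [e1, e2, e3]
          exact stage_out P.tr P.sub P.reghit P.out nb' hmap (fun n => (hG.base n).1)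
            (fun n => (hG.base n).2.2.2.1) (fun n => (hG.base n).2.2.2.2) lam h1.le h2 (i - 1)
            (hG.t4 lam h1.le h2 (i - 1))
        · by_cases hi2 : i ≤ 2 * N
          · have e1 : S i = EE' m k l (2 * N - i + 1) := by
              simp only [hS]; rw [if_neg (by omega)]
              by_cases h7 : i ≤ N + 1
              · rw [if_pos h7]; congr 1; omega
              · rw [if_neg h7, if_pos (by omega)]; congr 1; omega
            have e2 : S (i + 1) = EE' m k l (2 * N - i) := by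
              simp only [hS]; rw [if_neg (by omega), if_neg (by omega), if_pos (by omega)]
              congr 1; omega
            have e3 : c i = cu (2 * N - i) := by
              simp only [hc]; rw [if_neg (by omega), if_neg hiN, if_pos hi2]
            rw [e1, e2, e3]
            exact hup _
          · have hi3 : i = 2 * N + 1 := by omega
            subst hi3
            have e1 : S (2 * N + 1) = EE' m k l 0 := by
              simp only [hS]; rw [if_neg (by omega)]
              by_cases h7 : 2 * N + 1 ≤ N + 1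
              · rw [if_pos h7]; congr 1; omega
              · rw [if_neg h7, if_pos (by omega)]; congr 1; omega
            have e2 : S (2 * N + 1 + 1) = {A | o ∈ A} := by
              simp only [hS]; rw [if_neg (by omega), if_neg (by omega), if_neg (by omega)]
            have e3 : c (2 * N + 1) = 1 / 42 := by
              simp only [hc]; rw [if_neg (by omega), if_neg hiN, if_neg hi2]
            rw [e1, e2, e3]
            exact stage_end P.tr P.sub P.reghit P.start nb' hmap (fun n => (hG.base n).1)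
              (fun n => (hG.base n).2.2.2.1) (fun n => (hG.base n).2.2.2.2) lam h1.le h2 o ho)
  have hprod : 1 / 16 * (C * C') * (1 / 42) ≤ ∏ i ∈ Finset.range (2 * N + 2), c i := by
    rw [Finset.prod_range_succ, Finset.prod_range_succ', two_mul, Finset.prod_range_add]
    have e1 : ∏ x ∈ Finset.range N, c (x + 1) =
        ∏ n ∈ Finset.range N, (1 - 2 / ((n : ℝ) + 2) ^ 2) := by
      refine Finset.prod_congr rfl fun i hi => ?_
      have := Finset.mem_range.1 hi
      simp only [hc]; rw [if_neg (by omega), if_pos (by omega)]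
      simp
    have e2 : ∏ x ∈ Finset.range N, c (N + x + 1) = ∏ n ∈ Finset.range N, cu n := by
      rw [← Finset.prod_range_reflect cu N]
      refine Finset.prod_congr rfl fun i hi => ?_
      have := Finset.mem_range.1 hi
      simp only [hc]; rw [if_neg (by omega), if_neg (by omega), if_pos (by omega)]
      congr 1; omega
    have e3 : c 0 = 1 / 16 := by simp [hc]
    have e4 : c (N + N + 1) = 1 / 42 := by
      simp only [hc]; rw [if_neg (by omega), if_neg (by omega), if_neg (by omega)]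
    rw [e1, e2, e3, e4]
    have h5 : C * C' ≤ (∏ n ∈ Finset.range N, (1 - 2 / ((n : ℝ) + 2) ^ 2)) *
        ∏ n ∈ Finset.range N, cu n :=
      mul_le_mul (hCp N) (hCp' N) hC'.le (Finset.prod_nonneg fun n _ => (hpos n).le)
    linarith
  have hlev := level_ae P.step nb' hmap lam {o} (by
    intro v hv
    rw [Finset.mem_singleton.1 hv, ho]; rfl)
  refine le_trans (ENNReal.ofReal_le_ofReal hprod) (h3.trans (measure_mono_ae ?_))
  filter_upwards [hlev] with ω hl' hω
  obtain ⟨κ, hmono, hκ⟩ := hω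
  have h5 := hκ (N + 1) (by omega)
  have h6 := hκ (2 * N + 2) le_rfl
  have e1 : S (N + 1) = EE' m k l N := by
    simp only [hS]; rw [if_neg (by omega), if_pos (by omega)]; congr 1
  have e2 : S (2 * N + 2) = {A | o ∈ A} := by
    simp only [hS]; rw [if_neg (by omega), if_neg (by omega), if_neg (by omega)]
  rw [e1] at h5
  rw [e2] at h6
  have hmono' : ∀ i j, i ≤ j → j ≤ 2 * N + 2 → κ i ≤ κ j := by
    intro i j hij
    induction j, hij using Nat.le_induction with
    | base => intro _; exact le_rfl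
    | succ j hj ih => intro hj2; exact (ih (by omega)).trans (hmono j (by omega))
  refine ⟨κ (2 * N + 2), ?_, h6⟩
  refine le_trans ?_ (hmono' (N + 1) (2 * N + 2) (by omega) le_rfl)
  obtain ⟨x, hx⟩ := h5
  obtain ⟨v, hv⟩ := Finset.card_pos.1 (by omega :
    0 < (((ω (κ (N + 1))).1.map (em m k l)) ∩ cl m N x).card)
  rw [Finset.mem_inter] at hv
  obtain ⟨i, _, rfl⟩ := Finset.mem_image.1 hv.2
  obtain ⟨a, ha, hav⟩ := Finset.mem_map.1 hv.1
  have h7 : lev a.1 ≤ κ (N + 1) := hl' _ a ha
  have h8 : a.1 = Vx.h N x i := hav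
  rw [h8] at h7
  exact h7

end

end Pool.Agent.W845.CP
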