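import Mathlib
import Pool.Agent.W845.CP.Fin5

set_option autoImplicit false
set_option linter.style.haveILetI false
set_option linter.unusedSectionVars false
open scoped BigOperators ENNReal
open MeasureTheory ProbabilityTheory Filter

/-!
Project CP: final assembly, part 6 (upper bounds).
-/

namespace Pool.Agent.W845.CP

section

variable {m k l : ℕ → ℕ}

/-- transport of an inequality from the raw graph. -/
lemma ineq_sub (hSub : St_SUB) (nb' : VV m k l → Finset (VV m k l))
    (hmap : ∀ v, (nb' v).map (em m k l) = nbx m k l v.1) (lam : ℝ) (f g : Finset Vx → ℝ≥0∞)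
    (h : ∀ A : Finset Vx, (∀ v ∈ A, vld m k l v) →
      up (nbx m k l) lam f A + g A ≤ rate (nbx m k l) lam A * f A) (A : Finset (VV m k l)) :
    up nb' lam (fun B => f (B.map (em m k l))) A + g (A.map (em m k l)) ≤
      rate nb' lam A * f (A.map (em m k l)) := by
  have e1 := (hSub Vx (okv m k l) (nbx m k l) nb' hmap lam).1 f A
  have e2 := (hSub Vx (okv m k l) (nbx m k l) nb' hmap lam).2 A
  rw [e2]
  refine le_trans (le_of_eq ?_) (h (A.map (em m k l)) ?_)
  · rw [← e1]
  · intro v hv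
    obtain ⟨a, _, rfl⟩ := Finset.mem_map.1 hv
    exact okv_vld a.2

lemma nonexp (P : Parts) (hG : Good m k l) (nb' : VV m k l → Finset (VV m k l))
    (hmap : ∀ v, (nb' v).map (em m k l) = nbx m k l v.1) (lam : ℝ) (hl : 0 < lam)
    (A0 : Finset (VV m k l)) :
    ∀ᵐ ω ∂(law (jump nb' lam) (goodJ_jump nb' lam) A0),
      Tendsto (fun k => (ω k).2) atTop atTop := by
  obtain ⟨h, C, c, hC, hc, hh, hineq⟩ := P.nex m k l
    (fun n => ⟨(by have := (hG.base n).1; omega), (hG.base n).2.1, (hG.base n).2.2.1⟩)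
    (fun n => (hG.base n).2.2.2.2) lam hl
  have hv : ∀ A : Finset (VV m k l), ∀ v ∈ A.map (em m k l), vld m k l v := by
    intro A v hv
    obtain ⟨a, _, rfl⟩ := Finset.mem_map.1 hv
    exact okv_vld a.2
  refine P.ne (Finset (VV m k l)) (jump nb' lam) (goodJ_jump nb' lam) A0
    (fun B => h (B.map (em m k l))) C (c + 1) hC (by simp [hc]) (hh _) ?_ ?_
  · intro A
    by_cases hA : A = ∅
    · subst hA
      rw [lintegral_jump_empty, jump_univ_empty]
      calc h ((∅ : Finset (VV m k l)).map (em m k l)) =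
          1 * h ((∅ : Finset (VV m k l)).map (em m k l)) := by rw [one_mul]
        _ ≤ _ := mul_le_mul_left (le_self_add) _
    · rw [lintegral_jump nb' lam A hA, jump_univ nb' lam A hA]
      have e1 := (P.sub Vx (okv m k l) (nbx m k l) nb' hmap lam).1 h A
      have e2 := (P.sub Vx (okv m k l) (nbx m k l) nb' hmap lam).2 A
      rw [e2]
      refine le_trans (le_of_eq e1) ?_
      exact (hineq _ (hv A)).1
  · intro A
    by_cases hA : A = ∅
    · subst hA
      rw [jump_univ_empty]
      calc (1 : ℝ≥0∞) = 1 * 1 := by simp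
        _ ≤ (c + 1) * (h ((∅ : Finset (VV m k l)).map (em m k l)) + 1) :=
          mul_le_mul' le_add_self le_add_self
    · rw [jump_univ nb' lam A hA, (P.sub Vx (okv m k l) (nbx m k l) nb' hmap lam).2 A]
      refine ((hineq _ (hv A)).2).trans ?_
      exact mul_le_mul_left le_self_add _

/-- Extinction below the critical rate. -/
lemma extinct (P : Parts) (hG : Good m k l) (nb' : VV m k l → Finset (VV m k l))
    (hmap : ∀ v, (nb' v).map (em m k l) = nbx m k l v.1) (lam : ℝ) (hl : 0 < lam)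
    (hl2 : lam < 1 / 20) (A0 : Finset (VV m k l)) :
    ∀ᵐ ω ∂(law (jump nb' lam) (goodJ_jump nb' lam) A0), ∃ j, (ω j).1 = ∅ := by
  obtain ⟨N, hN⟩ := hG.t3 lam hl hl2
  have hm1 : ∀ n, 1 ≤ m n := fun n => by have := (hG.base n).1; omega
  have hTs : ∀ n, 0 < Ts (1 / 20) (m n) := fun n => by
    have h1 := (P.seq.1 (1 / 20) (by norm_num) (m n) (hm1 n)).2.2.2.2.2.2.2.1
    have h2 : (0 : ℝ) < m n := by exact_mod_cast hm1 n
    unfold Ts; positivity
  have hTs0 : ∀ n, 0 < Ts lam (m n) := fun n => by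
    have h1 := (P.seq.1 lam hl.le (m n) (hm1 n)).2.2.2.2.2.2.2.1
    have h2 : (0 : ℝ) < m n := by exact_mod_cast hm1 n
    unfold Ts; positivity
  have hTle : ∀ n, Ts lam (m n) ≤ Ts (1 / 20) (m n) := fun n =>
    ((P.seq.1 lam hl.le (m n) (hm1 n)).2.2.2.2.2.2.2.2.2.1 (1 / 20) hl2.le).2
  have ho : ∀ n, 0 < oo (l n) (1 / 20) := fun n =>
    (P.path (1 / 20) (by norm_num) (by norm_num) (l n) (hG.base n).2.2.2.2).2.2.2.1
  have ho0 : ∀ n, 0 < oo (l n) lam := fun n =>
    (P.path lam hl (by linarith) (l n) (hG.base n).2.2.2.2).2.2.2.1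
  have hole : ∀ n, oo (l n) lam ≤ oo (l n) (1 / 20) := fun n =>
    (P.path lam hl (by linarith) (l n) (hG.base n).2.2.2.2).2.2.2.2.2.2.1 (1 / 20) hl2.le
      (by norm_num)
  set θ : ℕ → ℝ := fun n => if n < N then
    Ts (1 / 20) (m n) * (1 / 19 : ℝ) ^ k n * oo (l n) (1 / 20) else 1 with hθ
  have hθpos : ∀ n, 0 < θ n := fun n => by
    simp only [hθ]
    split_ifs
    · have := hTs n; have := ho n; positivity
    · exact one_pos
  set W : ℕ → ℝ := fun n => ∏ j ∈ Finset.range n, θ j with hW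
  have hWpos : ∀ n, 0 < W n := fun n => Finset.prod_pos fun j _ => hθpos j
  have hWs : ∀ n, W (n + 1) = W n * θ n := fun n => Finset.prod_range_succ _ _
  have hWN : ∀ n, N ≤ n → W n = W N := by
    intro n hn
    induction n, hn using Nat.le_induction with
    | base => rfl
    | succ n hn ih =>
      rw [hWs, ih]
      have : θ n = 1 := by simp only [hθ]; rw [if_neg (by omega)]
      rw [this, mul_one]
  -- a positive lower bound for `W`
  obtain ⟨w, hw, hwW⟩ : ∃ w : ℝ, 0 < w ∧ ∀ n, w ≤ W n := by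
    have hne : (Finset.range (N + 1)).Nonempty := ⟨0, by simp⟩
    refine ⟨(Finset.range (N + 1)).inf' hne W, ?_, fun n => ?_⟩
    · rw [Finset.lt_inf'_iff]
      exact fun i _ => hWpos i
    · by_cases hn : n ≤ N
      · exact Finset.inf'_le W (Finset.mem_range.2 (by omega))
      · rw [hWN n (by omega)]
        exact Finset.inf'_le W (Finset.mem_range.2 (by omega))
  have hpow1 : ∀ n, (2 / 19 : ℝ) ^ k n ≤ 1 := fun n => pow_le_one₀ (by norm_num) (by norm_num)
  have hpow2 : ∀ n, (1 / 19 : ℝ) ^ k n ≤ 1 := fun n => pow_le_one₀ (by norm_num) (by norm_num)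
  have hpp : ∀ n, (1 / 19 : ℝ) ^ k n * (2 / 19 : ℝ) ^ k n = (2 * (1 / 19 : ℝ) ^ 2) ^ k n := by
    intro n; rw [← mul_pow]; congr 1; norm_num
  obtain ⟨f, hf, hfi⟩ := P.ups m k l hm1 (fun n => (hG.base n).2.2.2.1)
    (fun n => (hG.base n).2.2.2.2) lam hl hl2.le W hWpos (fun n => by
      rw [hWs]
      by_cases hn : n < N
      · have e1 : θ n = Ts (1 / 20) (m n) * (1 / 19 : ℝ) ^ k n * oo (l n) (1 / 20) := by
          simp only [hθ]; rw [if_pos hn]
        rw [e1]
        have h1 : Ts lam (m (n + 1)) * oo (l n) lam ≤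
            Ts (1 / 20) (m (n + 1)) * oo (l n) (1 / 20) :=
          mul_le_mul (hTle _) (hole n) (ho0 n).le (hTs _).le
        have h2 := hG.t1 n
        rw [← hpp n] at h2
        have h3 : (0 : ℝ) ≤ (2 / 19 : ℝ) ^ k n := by positivity
        have h4 : (0 : ℝ) ≤ Ts (1 / 20) (m n) * (1 / 19 : ℝ) ^ k n * oo (l n) (1 / 20) := by
          have := hTs n; have := ho n; positivity
        calc W n * (Ts (1 / 20) (m n) * (1 / 19 : ℝ) ^ k n * oo (l n) (1 / 20)) *
              Ts lam (m (n + 1)) * oo (l n) lam * (2 / 19 : ℝ) ^ k n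
            = W n * ((Ts (1 / 20) (m n) * (1 / 19 : ℝ) ^ k n * oo (l n) (1 / 20)) *
              (Ts lam (m (n + 1)) * oo (l n) lam) * (2 / 19 : ℝ) ^ k n) := by ring
          _ ≤ W n * ((Ts (1 / 20) (m n) * (1 / 19 : ℝ) ^ k n * oo (l n) (1 / 20)) *
              (Ts (1 / 20) (m (n + 1)) * oo (l n) (1 / 20)) * (2 / 19 : ℝ) ^ k n) := by
              refine mul_le_mul_of_nonneg_left ?_ (hWpos n).le
              refine mul_le_mul_of_nonneg_right ?_ h3
              exact mul_le_mul_of_nonneg_left h1 h4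
          _ = W n * (Ts (1 / 20) (m n) * Ts (1 / 20) (m (n + 1)) * oo (l n) (1 / 20) ^ 2 *
              ((1 / 19 : ℝ) ^ k n * (2 / 19 : ℝ) ^ k n)) := by ring
          _ ≤ W n * 1 := mul_le_mul_of_nonneg_left h2 (hWpos n).le
          _ = W n := mul_one _
      · have e1 : θ n = 1 := by simp only [hθ]; rw [if_neg hn]
        rw [e1, mul_one]
        have h1 := (hN n (by omega)).1
        have h2 : 0 ≤ Ts lam (m (n + 1)) * oo (l n) lam := (mul_pos (hTs0 _) (ho0 n)).le
        calc W n * Ts lam (m (n + 1)) * oo (l n) lam * (2 / 19 : ℝ) ^ k n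
            = W n * ((Ts lam (m (n + 1)) * oo (l n) lam) * (2 / 19 : ℝ) ^ k n) := by ring
          _ ≤ W n * 1 := by
              refine mul_le_mul_of_nonneg_left ?_ (hWpos n).le
              exact mul_le_one₀ h1 (by positivity) (hpow1 n)
          _ = W n := mul_one _)
    (fun n => by
      rw [hWs]
      have h4 : W n * Ts lam (m n) * (1 / 19 : ℝ) ^ k n * oo (l n) lam =
        W n * ((Ts lam (m n) * oo (l n) lam) * (1 / 19 : ℝ) ^ k n) := by ring
      rw [h4]
      refine mul_le_mul_of_nonneg_left ?_ (hWpos n).le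
      by_cases hn : n < N
      · have e1 : θ n = Ts (1 / 20) (m n) * (1 / 19 : ℝ) ^ k n * oo (l n) (1 / 20) := by
          simp only [hθ]; rw [if_pos hn]
        rw [e1]
        have h1 : Ts lam (m n) * oo (l n) lam ≤ Ts (1 / 20) (m n) * oo (l n) (1 / 20) :=
          mul_le_mul (hTle _) (hole n) (ho0 n).le (hTs _).le
        calc Ts lam (m n) * oo (l n) lam * (1 / 19 : ℝ) ^ k n ≤
            Ts (1 / 20) (m n) * oo (l n) (1 / 20) * (1 / 19 : ℝ) ^ k n :=
              mul_le_mul_of_nonneg_right h1 (by positivity)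
          _ = _ := by ring
      · have e1 : θ n = 1 := by simp only [hθ]; rw [if_neg hn]
        rw [e1]
        exact mul_le_one₀ (hN n (by omega)).2 (by positivity) (hpow2 n))
    (fun n => by
      have h1 : oo (l n) lam ^ 2 ≤ oo (l n) (1 / 20) ^ 2 :=
        pow_le_pow_left₀ (ho0 n).le (hole n) 2
      calc Ts lam (m (n + 1)) * oo (l n) lam ^ 2 ≤
          Ts (1 / 20) (m (n + 1)) * oo (l n) (1 / 20) ^ 2 :=
            mul_le_mul (hTle _) h1 (by positivity) (hTs _).le
        _ ≤ 1 := hG.t2 n)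
    (w / 16) (by positivity) (fun n => by have := hwW n; linarith)
  refine ext_ae P.step P.occ1 nb' lam A0 (nonexp P hG nb' hmap lam hl A0)
    (fun B => f (B.map (em m k l)))
    (fun B => ENNReal.ofReal (if (B.map (em m k l) ∩ cl m 0 0).Nonempty then W 0 / 4 else 0) +
      ENNReal.ofReal (if B.map (em m k l) = ∅ then 0 else w / 16 / 4)) (by simp) (hf _)
    (fun A _ => ineq_sub P.sub nb' hmap lam f (fun A =>
      ENNReal.ofReal (if (A ∩ cl m 0 0).Nonempty then W 0 / 4 else 0) +
      ENNReal.ofReal (if A = ∅ then 0 else w / 16 / 4)) hfi A)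
    (ENNReal.ofReal (w / 16 / 4)) ?_ ?_
  · exact (ENNReal.ofReal_pos.2 (by positivity)).ne'
  · intro A hA
    have h1 : A.map (em m k l) ≠ ∅ := by
      rw [Ne, Finset.map_eq_empty]; exact hA
    simp only [if_neg h1]
    exact le_add_self

/-- Local extinction at the critical rate. -/
lemma locext (P : Parts) (hG : Good m k l) (nb' : VV m k l → Finset (VV m k l))
    (hmap : ∀ v, (nb' v).map (em m k l) = nbx m k l v.1)
    (A0 : Finset (VV m k l)) (o : VV m k l) (ho1 : o.1 = Vx.h 0 0 1) :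
    ∀ᵐ ω ∂(law (jump nb' (1 / 20)) (goodJ_jump nb' (1 / 20)) A0),
      ¬ (∀ t : ℝ, ∃ s, t ≤ s ∧ o ∈ infected ω s) := by
  have hm1 : ∀ n, 1 ≤ m n := fun n => by have := (hG.base n).1; omega
  have hTs : ∀ n, 0 < Ts (1 / 20) (m n) := fun n => by
    have h1 := (P.seq.1 (1 / 20) (by norm_num) (m n) (hm1 n)).2.2.2.2.2.2.2.1
    have h2 : (0 : ℝ) < m n := by exact_mod_cast hm1 n
    unfold Ts; positivity
  have ho : ∀ n, 0 < oo (l n) (1 / 20) := fun n =>
    (P.path (1 / 20) (by norm_num) (by norm_num) (l n) (hG.base n).2.2.2.2).2.2.2.1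
  set θ : ℕ → ℝ := fun n => Ts (1 / 20) (m n) * (1 / 19 : ℝ) ^ k n * oo (l n) (1 / 20) with hθ
  have hθpos : ∀ n, 0 < θ n := fun n => by
    simp only [hθ]
    have := hTs n; have := ho n; positivity
  set W : ℕ → ℝ := fun n => ∏ j ∈ Finset.range n, θ j with hW
  have hWpos : ∀ n, 0 < W n := fun n => Finset.prod_pos fun j _ => hθpos j
  have hWs : ∀ n, W (n + 1) = W n * θ n := fun n => Finset.prod_range_succ _ _
  have hpp : ∀ n, (1 / 19 : ℝ) ^ k n * (2 / 19 : ℝ) ^ k n = (2 * (1 / 19 : ℝ) ^ 2) ^ k n := by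
    intro n; rw [← mul_pow]; congr 1; norm_num
  obtain ⟨f, hf, hfi⟩ := P.ups m k l hm1 (fun n => (hG.base n).2.2.2.1)
    (fun n => (hG.base n).2.2.2.2) (1 / 20) (by norm_num) le_rfl W hWpos (fun n => by
      rw [hWs]
      have h2 := hG.t1 n
      rw [← hpp n] at h2
      calc W n * θ n * Ts (1 / 20) (m (n + 1)) * oo (l n) (1 / 20) * (2 / 19 : ℝ) ^ k n
          = W n * (Ts (1 / 20) (m n) * Ts (1 / 20) (m (n + 1)) * oo (l n) (1 / 20) ^ 2 *
              ((1 / 19 : ℝ) ^ k n * (2 / 19 : ℝ) ^ k n)) := by simp only [hθ]; ring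
        _ ≤ W n * 1 := mul_le_mul_of_nonneg_left h2 (hWpos n).le
        _ = W n := mul_one _)
    (fun n => by
      rw [hWs]
      have h4 : W n * Ts (1 / 20) (m n) * (1 / 19 : ℝ) ^ k n * oo (l n) (1 / 20) = W n * θ n := by
        simp only [hθ]; ring
      rw [h4])
    (fun n => hG.t2 n) 0 le_rfl (fun n => by have := hWpos n; linarith)
  -- multiply by a large constant
  have hW0 : W 0 = 1 := by simp [hW]
  set M : ℝ≥0∞ := 4 * ((m 0 : ℝ≥0∞) + 1) with hM
  have hMtop : M ≠ ⊤ := by
    simp only [hM]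
    exact ENNReal.mul_ne_top (by simp) (by simp)
  have hcl : ∀ A : Finset (VV m k l), ∀ x ∈ A, x.1 ∈ cl m 0 0 →
      (A.map (em m k l) ∩ cl m 0 0).Nonempty := fun A x hx hx' =>
    ⟨x.1, Finset.mem_inter.2 ⟨Finset.mem_map_of_mem (em m k l) hx, hx'⟩⟩
  have hg4 : ∀ A : Finset (VV m k l), (A.map (em m k l) ∩ cl m 0 0).Nonempty →
      ((m 0 : ℝ≥0∞) + 1) ≤ M * (ENNReal.ofReal (if (A.map (em m k l) ∩ cl m 0 0).Nonempty then
        W 0 / 4 else 0) + ENNReal.ofReal (if A.map (em m k l) = ∅ then 0 else (0 : ℝ) / 4)) := by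
    intro A hA
    rw [if_pos hA, hW0]
    have h1 : ENNReal.ofReal (1 / 4) = 4⁻¹ := by
      rw [one_div, ENNReal.ofReal_inv_of_pos (by norm_num)]; norm_num
    have h2 : M * ENNReal.ofReal (1 / 4) = (m 0 : ℝ≥0∞) + 1 := by
      rw [h1, hM, mul_comm (4 : ℝ≥0∞), mul_assoc, ENNReal.mul_inv_cancel (by norm_num) (by norm_num),
        mul_one]
    rw [← h2]
    exact mul_le_mul_right le_self_add _
  have hocl : o.1 ∈ cl m 0 0 := by
    rw [ho1]; unfold cl
    exact Finset.mem_image.2 ⟨1, Finset.mem_range.2 (by have := (hG.base 0).1; omega), rfl⟩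
  refine loc_ae P.step P.occ1 P.occ2 nb' (1 / 20) A0 o
    (fun B => M * f (B.map (em m k l)))
    (fun B => M * (ENNReal.ofReal (if (B.map (em m k l) ∩ cl m 0 0).Nonempty then W 0 / 4 else 0) +
      ENNReal.ofReal (if B.map (em m k l) = ∅ then 0 else (0 : ℝ) / 4))) (by simp)
    (ENNReal.mul_ne_top hMtop (hf _)) ?_ ?_ ?_
  · intro A _
    have h1 := ineq_sub P.sub nb' hmap (1 / 20) f (fun A =>
      ENNReal.ofReal (if (A ∩ cl m 0 0).Nonempty then W 0 / 4 else 0) +
      ENNReal.ofReal (if A = ∅ then 0 else (0 : ℝ) / 4)) hfi A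
    have h2 := mul_le_mul_right h1 M
    have h3 : up nb' (1 / 20) (fun B => M * f (B.map (em m k l))) A =
        M * up nb' (1 / 20) (fun B => f (B.map (em m k l))) A := by
      unfold up
      simp only [← Finset.mul_sum, mul_add]
      ring
    rw [h3]
    calc _ = M * (up nb' (1 / 20) (fun B => f (B.map (em m k l))) A +
          (ENNReal.ofReal (if (A.map (em m k l) ∩ cl m 0 0).Nonempty then W 0 / 4 else 0) +
            ENNReal.ofReal (if A.map (em m k l) = ∅ then 0 else (0 : ℝ) / 4))) := by ring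
      _ ≤ M * (rate nb' (1 / 20) A * f (A.map (em m k l))) := h2
      _ = _ := by ring
  · intro A hA
    refine le_trans ?_ (hg4 A (hcl A o hA hocl))
    exact le_add_self
  · intro A hA
    by_cases hne : (A.filter (fun x => o ∈ nb' x)).Nonempty
    · obtain ⟨x, hx⟩ := hne
      rw [Finset.mem_filter] at hx
      -- all such vertices lie in the root hub
      have hsub : ∀ y ∈ A.filter (fun x => o ∈ nb' x), y.1 ∈ cl m 0 0 := by
        intro y hy
        rw [Finset.mem_filter] at hy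
        have h1 : o.1 ∈ nbx m k l y.1 := by
          rw [← hmap y]; exact Finset.mem_map_of_mem (em m k l) hy.2
        have h2 := (P.graph m k l hm1 (fun n => (hG.base n).2.2.2.2)).1 y.1 o.1 y.2 h1
        have h3 := h2.2.1
        rw [ho1] at h3
        simp only [nbx] at h3
        rw [if_pos (by have := (hG.base 0).1; omega), if_neg (by norm_num),
          Finset.union_empty] at h3
        obtain ⟨i, hi, hie⟩ := Finset.mem_image.1 h3
        rw [← hie]
        unfold cl
        exact Finset.mem_image.2 ⟨i, (Finset.mem_erase.1 hi).2, rfl⟩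
      refine le_trans ?_ (hg4 A (hcl A x hx.1 (hsub x (Finset.mem_filter.2 hx))))
      have hcard : (A.filter (fun x => o ∈ nb' x)).card ≤ m 0 := by
        have h4 : ((A.filter (fun x => o ∈ nb' x)).map (em m k l)) ⊆ cl m 0 0 := by
          intro v hv
          obtain ⟨a, ha, rfl⟩ := Finset.mem_map.1 hv
          exact hsub a ha
        have h5 := Finset.card_le_card h4
        rw [Finset.card_map] at h5
        refine h5.trans ?_
        unfold cl
        refine Finset.card_image_le.trans ?_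
        simp
      calc ENNReal.ofReal (1 / 20) * ((A.filter (fun x => o ∈ nb' x)).card : ℝ≥0∞)
          ≤ 1 * ((A.filter (fun x => o ∈ nb' x)).card : ℝ≥0∞) := by
            refine mul_le_mul_left ?_ _
            exact ENNReal.ofReal_le_one.2 (by norm_num)
        _ = ((A.filter (fun x => o ∈ nb' x)).card : ℝ≥0∞) := one_mul _
        _ ≤ (m 0 : ℝ≥0∞) := by exact_mod_cast hcard
        _ ≤ _ := le_self_add
    · rw [Finset.not_nonempty_iff_eq_empty] at hne
      rw [hne]; simp

end

end Pool.Agent.W845.CP
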