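import Mathlib
import Pool.Agent.W845.CP.Fin6

set_option autoImplicit false
set_option linter.style.haveILetI false
set_option linter.unusedSectionVars false
open scoped BigOperators ENNReal
open MeasureTheory ProbabilityTheory Filter

/-!
Project CP: final assembly, part 7 (the graph and the theorem).
-/

namespace Pool.Agent.W845.CP

/-- The graph. -/
def Gr (m k l : ℕ → ℕ) : SimpleGraph (VV m k l) :=
  SimpleGraph.fromRel (fun a b => b.1 ∈ nbx m k l a.1)

section

variable {m k l : ℕ → ℕ}

lemma gr_adj (hGr : St_GRAPH) (hm : ∀ n, 1 ≤ m n) (hl : ∀ n, 1 ≤ l n) (a b : VV m k l) :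
    (Gr m k l).Adj a b ↔ b.1 ∈ nbx m k l a.1 := by
  unfold Gr
  rw [SimpleGraph.fromRel_adj]
  have hg := (hGr m k l hm hl).1
  constructor
  · rintro ⟨_, h | h⟩
    · exact h
    · exact (hg _ _ b.2 h).2.1
  · intro h
    refine ⟨?_, Or.inl h⟩
    intro hab
    exact (hg _ _ a.2 h).2.2 (by rw [hab])

lemma gr_connected (hGr : St_GRAPH) (hm : ∀ n, 1 ≤ m n) (hl : ∀ n, 1 ≤ l n) :
    (Gr m k l).Connected := by
  have hg := (hGr m k l hm hl)
  have h0 : okv m k l (Vx.h 0 0 0) := ⟨by have := hm 0; omega, by positivity⟩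
  set r : VV m k l := ⟨Vx.h 0 0 0, h0⟩ with hr
  have key : ∀ v, ∀ hv : okv m k l v, (Gr m k l).Reachable ⟨v, hv⟩ r := by
    intro v hv
    have h1 := hg.2 v hv
    induction h1 using Relation.ReflTransGen.head_induction_on with
    | refl => exact SimpleGraph.Reachable.refl _
    | head h2 _ ih =>
      obtain ⟨ha, hb, hab⟩ := h2
      exact (SimpleGraph.Adj.reachable ((gr_adj hGr hm hl ⟨_, ha⟩ ⟨_, hb⟩).2 hab)).trans (ih hb)
  haveI : Nonempty (VV m k l) := ⟨r⟩
  exact ⟨fun a b => (key a.1 a.2).trans (key b.1 b.2).symm⟩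

theorem final (P : Parts) (hTune : St_TUNE) :
    ∃ (V : Type) (_ : DecidableEq V) (_ : Countable V) (G : SimpleGraph V)
      (_ : G.LocallyFinite) (o : V), G.Connected ∧
      (∀ lam : ℝ, 0 < lam → NonExplosive G lam o) ∧
      lamGlob G o = 1 / 20 ∧ lamLoc G o = 1 / 20 ∧
      SurvivesGlobally G (1 / 20) o ∧ ¬ SurvivesLocally G (1 / 20) o := by
  obtain ⟨m, k, l, hb, h1, h2, h3, h4, h5⟩ := hTune
  have hG : Good m k l := ⟨hb, h1, h2, h3, h4, h5⟩
  have hm1 : ∀ n, 1 ≤ m n := fun n => by have := (hG.base n).1; omega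
  have hl1 : ∀ n, 1 ≤ l n := fun n => (hG.base n).2.2.2.2
  have hadj := gr_adj (k := k) P.graph hm1 hl1
  have hok := (P.graph m k l hm1 hl1).1
  letI hfin : (Gr m k l).LocallyFinite := fun v =>
    Fintype.ofFinset ((nbx m k l v.1).subtype (okv m k l)) (fun w => by
      rw [Finset.mem_subtype, SimpleGraph.mem_neighborSet, hadj])
  have hmap : ∀ v : VV m k l, ((Gr m k l).neighborFinset v).map (em m k l) = nbx m k l v.1 := by
    intro v
    ext w
    rw [Finset.mem_map]
    constructor
    · rintro ⟨a, ha, rfl⟩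
      rw [SimpleGraph.mem_neighborFinset, hadj] at ha
      exact ha
    · intro hw
      exact ⟨⟨w, (hok _ _ v.2 hw).1⟩, by rw [SimpleGraph.mem_neighborFinset, hadj]; exact hw, rfl⟩
  have ho : okv m k l (Vx.h 0 0 1) := ⟨by have := (hG.base 0).1; omega, by positivity⟩
  set o : VV m k l := ⟨Vx.h 0 0 1, ho⟩ with hodef
  have hlev : ∀ v ∈ ({o} : Finset (VV m k l)), lev v.1 = 0 := by
    intro v hv
    rw [Finset.mem_singleton.1 hv]; rfl
  have hne : ∀ lam : ℝ, 0 < lam → NonExplosive (Gr m k l) lam o := fun lam hl =>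
    nonexp P hG (fun x => (Gr m k l).neighborFinset x) hmap lam hl {o}
  -- no global survival below 1/20
  have hsub : ∀ lam : ℝ, 0 < lam → lam < 1 / 20 → ¬ SurvivesGlobally (Gr m k l) lam o := by
    intro lam hl hl2 hs
    have e1 := extinct P hG (fun x => (Gr m k l).neighborFinset x) hmap lam hl hl2 {o}
    have e2 := basic_ae P.step (fun x => (Gr m k l).neighborFinset x) lam {o}
    have e3 : contactLaw (Gr m k l) lam o
        {ω | ∀ t : ℝ, 0 ≤ t → (infected ω t).Nonempty} = 0 := by
      have : ∀ᵐ ω ∂(contactLaw (Gr m k l) lam o),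
          ¬ (∀ t : ℝ, 0 ≤ t → (infected ω t).Nonempty) := by
        filter_upwards [e1, e2] with ω h6 h7 h8
        obtain ⟨j, hj⟩ := h6
        have hm := T_strictMono h7.2.1
        have h9 : 0 ≤ (ω j).2 := by
          have := hm.monotone (Nat.zero_le j)
          simp only [h7.1] at this
          exact this
        obtain ⟨x, hx⟩ := h8 _ h9
        rw [infected_at h7.2.1] at hx
        have hx' : x ∈ (ω j).1 := hx
        rw [hj] at hx'
        simp at hx'
      rw [ae_iff] at this
      simpa using this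
    unfold SurvivesGlobally at hs
    rw [e3] at hs
    exact lt_irrefl _ hs
  -- local survival implies global survival below: from local to global through extinction
  have hsubloc : ∀ lam : ℝ, 0 < lam → lam < 1 / 20 → ¬ SurvivesLocally (Gr m k l) lam o := by
    intro lam hl hl2 hs
    have e1 := extinct P hG (fun x => (Gr m k l).neighborFinset x) hmap lam hl hl2 {o}
    have e2 := basic_ae P.step (fun x => (Gr m k l).neighborFinset x) lam {o}
    have e3 : contactLaw (Gr m k l) lam o
        {ω | ∀ t : ℝ, ∃ s, t ≤ s ∧ o ∈ infected ω s} = 0 := by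
      have : ∀ᵐ ω ∂(contactLaw (Gr m k l) lam o),
          ¬ (∀ t : ℝ, ∃ s, t ≤ s ∧ o ∈ infected ω s) := by
        filter_upwards [e1, e2] with ω h6 h7 h8
        obtain ⟨j, hj⟩ := h6
        have hm := T_strictMono h7.2.1
        obtain ⟨s, hs1, κ, hκ1, hκ2, hκ3⟩ := h8 (ω j).2
        have h10 : j < κ + 1 := hm.lt_iff_lt.1 (lt_of_le_of_lt hs1 hκ2)
        have h11 := empty_absorb h7.2.2 hj κ (by omega)
        rw [h11] at hκ3
        simp at hκ3
      rw [ae_iff] at this
      simpa using this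
    unfold SurvivesLocally at hs
    rw [e3] at hs
    exact lt_irrefl _ hs
  have hglob : SurvivesGlobally (Gr m k l) (1 / 20) o := by
    obtain ⟨C, hC, hCN⟩ := chain_out P hG (fun x => (Gr m k l).neighborFinset x) hmap (1 / 20)
      le_rfl (by norm_num) o rfl (hne _ (by norm_num))
    exact glob_of_chain P.step (fun x => (Gr m k l).neighborFinset x) hmap (1 / 20) {o} hlev
      (hne _ (by norm_num)) C hC hCN
  have hloc : ∀ lam : ℝ, 1 / 20 < lam → lam ≤ 1 / 16 → SurvivesLocally (Gr m k l) lam o := by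
    intro lam hl hl2
    obtain ⟨C, hC, hCN⟩ := chain_loc P hG (fun x => (Gr m k l).neighborFinset x) hmap lam
      hl hl2 o rfl (hne _ (by linarith))
    exact loc_of_chain P.step (fun x => (Gr m k l).neighborFinset x) lam {o} o
      (hne _ (by linarith)) C hC hCN
  have hnloc : ¬ SurvivesLocally (Gr m k l) (1 / 20) o := by
    intro hs
    have e1 := locext P hG (fun x => (Gr m k l).neighborFinset x) hmap {o} o rfl
    have e3 : contactLaw (Gr m k l) (1 / 20) o
        {ω | ∀ t : ℝ, ∃ s, t ≤ s ∧ o ∈ infected ω s} = 0 := by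
      have e1' : ∀ᵐ ω ∂(contactLaw (Gr m k l) (1 / 20) o),
          ¬ (∀ t : ℝ, ∃ s, t ≤ s ∧ o ∈ infected ω s) := e1
      rw [ae_iff] at e1'
      simpa using e1'
    unfold SurvivesLocally at hs
    rw [e3] at hs
    exact lt_irrefl _ hs
  refine ⟨VV m k l, inferInstance, inferInstance, Gr m k l, hfin, o,
    gr_connected P.graph hm1 hl1, hne, ?_, ?_, hglob, hnloc⟩
  · refine le_antisymm ?_ ?_
    · exact csInf_le ⟨0, fun x hx => hx.1.le⟩ ⟨by norm_num, hglob⟩
    · refine le_csInf ⟨1 / 20, by norm_num, hglob⟩ ?_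
      rintro lam ⟨hl, hs⟩
      by_contra hcon
      push Not at hcon
      exact hsub lam hl hcon hs
  · refine le_antisymm ?_ ?_
    · refine le_of_forall_gt_imp_ge_of_dense fun a ha => ?_
      have h6 : (1 : ℝ) / 20 < min a (1 / 16) := lt_min ha (by norm_num)
      refine (csInf_le ⟨0, fun x hx => hx.1.le⟩ ?_).trans (min_le_left a (1 / 16))
      exact ⟨by linarith [h6], hloc _ h6 (min_le_right _ _)⟩
    · refine le_csInf ⟨1 / 16, by norm_num, hloc _ (by norm_num) le_rfl⟩ ?_
      rintro lam ⟨hl, hs⟩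
      by_contra hcon
      push Not at hcon
      exact hsubloc lam hl hcon hs

end

end Pool.Agent.W845.CP
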